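import Pool.Agent.V8H77.PC.Main

set_option autoImplicit false

/-!
# The centre of the period torsors: complex multiplication by abelian fields

Let `A` be an abelian variety over `ℚ̄` and let `M` be any André motive over `ℚ̄` in the tensor
category generated by `h^1(A)` and the Tate motives. Let `P` be the matrix of the periods
of `M`, and let `G ⊆ GL(H_B(M))` be *any* algebraic group over `ℚ` such that the comparison
isomorphism of `M` is a point of a torsor of `G` defined over `ℚ̄`: `P T ∈ G(ℂ)` for some matrix `T`
with algebraic entries. By theorems of Deligne and André the motivic Galois group of `M` is its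
Mumford-Tate group `MT(M)`, and `P` is a point of a torsor of `MT(M)`. Grothendieck's conjecture
(weak form: the transcendence degree of the periods is `dim MT(M)`) says that `P` is a generic point
of this torsor; in particular it predicts that every such `G` contains `MT(M)`. (The prediction for all
`M` is equivalent to: all de Rham-Betti classes in the tensor constructions of `h^1(A)` are Hodge classes.)

**Theorem.** Let the centre `𝔷` of the Lie algebra `𝔤` of the Hodge group of `A` be of abelian type
(`AbelianCentre`, see below). Nothing is assumed about the semisimple part of `𝔤`.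

1. `G` contains the connected centre of `MT(M)`: `exp (t X)` is in `G` for all `X` in the image of `𝔷` in the
   endomorphisms of `M`, and all complex numbers `t`.
2. If `G` contains the derived group of `MT(M)` (this is known in many cases) then it contains `MT(M)`.
3. If `𝔤` is commutative (`A` has complex multiplication) then `G` contains `MT(M)`.

**Centres of abelian type.** There are a finite abelian group `Γ` (written additively), an element
`c ∈ Γ` with `2 c = 0`, and functions `ε γ : 𝔷 → ℂ`, for `γ ∈ Γ`, such that `ε (c + γ) = - ε γ`; the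
translations are given by automorphisms of `ℂ`: for all `γ` there is `σ` with
`σ (ε γ' (X)) = ε (γ + γ') (X)`; all types occur: for all subsets `Φ` of `Γ` which contain exactly one of
`γ`, `c + γ` for all `γ`, there is a common eigenvector of `𝔷` in `H_1(A, ℂ)`, annihilated by `[𝔤, 𝔤]`,
with the eigenvalues `∑ γ ∈ Φ, ε γ (X)`, and these are different functions for different types; the
eigenvalues of all common eigenvectors of `𝔷` in `H_1(A, ℂ)` are linear combinations with rational
coefficients of the `ε γ (X)`.

**The main example.** Let `L` be a CM field with an abelian Galois group `Γ = Gal(L / ℚ)`, with the complex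
conjugation `c`, and let `A` be the product of the abelian varieties `A_Φ` with multiplication by `L`,
for all CM types `Φ ⊂ Γ` of `L` (one for each isogeny class is enough). By the theory of Shimura and
Taniyama they are defined over `ℚ̄`. Here `𝔤 = 𝔷` is the space of all `x ∈ L` with `c(x) = - x`, where
`x` acts on `H_1(A_Φ, ℚ) = L` as the multiplication with `∑ γ ∈ Φ, γ⁻¹(x)`. The eigenvalues are the
`∑ γ ∈ Φ, σ γ⁻¹(x)`, `σ ∈ Γ`, and `σ Φ⁻¹` is an arbitrary type. So the centre is of abelian type,
with `ε γ (x) = γ(x)`. Every abelian variety with complex multiplication such that the centre of its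
algebra of endomorphisms is a product of fields which are abelian over `ℚ` is isogenous to a factor of a
power of such an `A` (let `L` be the compositum of these fields). So *for all motives `M` in the tensor category
generated by the abelian varieties with complex multiplication by abelian fields, and the Tate motives, every
`G` contains `MT(M)`*: `Ω_M = Ω_M^{dRB} = Ω_M^{And}`, and all de Rham-Betti classes are Hodge classes. Examples: the
Jacobians of the Fermat curves `x^n + y^n = 1` and their products, the cohomology of the Fermat hypersurfaces of all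
degrees and dimensions (Shioda and Katsura, Deligne), the curves `y^n = x^a (1 - x)^b`, K3 surfaces with complex
multiplication by abelian fields. In terms of the values of the gamma function: a family of monomials in
the numbers `Γ(a / n)` which is stable under the action of `(ℤ / n)^*` on the fractions `a / n` consists of
algebraic multiples of powers of `2 π i` only if this follows from the standard relations (Rohrlich's
conjecture is the same for one monomial).

More generally let `E` be any CM field such that the Galois group of its normal closure contains an abelian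
subgroup `Γ` which acts transitively on the embeddings of `E` in `ℂ`; for example `[E : ℚ] = 2 p` with a
prime number `p`, or the Galois group of the totally real subfield `E⁺` contains a cycle of length `[E⁺ : ℚ]` (this is the case for
the symmetric group). Then the Kuga-Satake varieties of the K3 surfaces with complex multiplication by `E` have a
centre of abelian type: `𝔤 = {x ∈ E, x̄ = - x}`, and the eigenvalues on `H_1` are the sums `∑ φ(x) / 2` over the
embeddings `φ` in a CM type of `E`. So part 3 applies to all these K3 surfaces.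

If `A'` is an abelian variety with a semisimple part in its Hodge group, and the centre of `End(A') ⊗ ℚ` is a
product of totally real fields and of CM fields which are abelian over `ℚ`, one can take the product
`A` of `A'` and of the `A_Φ`, where `L` contains these CM fields: the centre of `𝔤` is still `{x ∈ L, c(x) = - x}`. So parts
1 and 2 hold for all motives in the tensor category generated by `h^1(A')`: the conjecture for `M` (in the form of the
torsors) is reduced to the derived group of `MT(M)`.

The theorem CentreOfPeriodTorsors (MP_f11a48_ag, in the starting library) assumes that the centre is *rigid*: all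
linear relations between the eigenvalues of an element `X` of the centre which generates the centre (in the sense of commutants)
hold for all elements of the centre. This was known if the centre has no proper algebraic subalgebras (for
abelian fields `L`: only if the degree of `L` is a power of two and `L` is cyclic), for the quadratic imaginary fields,
and in some cases of small degree. New is that all centres of abelian type are rigid.

Nothing is assumed about periods: `AbVar` is the description of an abelian variety over `ℚ̄` by theta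
functions (see `Pool/Agent/Y102/AVDefs.lean`, where it is explained why every abelian variety has it),
and the transcendence theorems which are used, the theorem of Schneider and Lang and the
transcendence of `π`, are proved in the library. The group `G` is not assumed to be reductive.

## Proof

By the theorem of Schneider and Lang (Wüstholz) the Lie algebra `𝔮` of the elements of `𝔤` which are, on `M`, in the
Lie algebra of `G` up to weights, acts on `H_1(A, ℚ)` with the same commutant as `𝔤`. Let `X` be a generic element of the
intersection of `𝔮` and `𝔷`, and let `x γ = ε γ (X)`. Since the commutants are the same, the sums `∑ γ ∈ Φ, x γ` are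
different for different types. The point is (`Pool.Agent.V8H77.PC.odd_rel`): *then the numbers `x γ` satisfy no
relation with rational coefficients besides `x (c + γ) + x γ = 0`.* Let `n γ` be the coefficients of another relation, with
`n (c + γ) = - n γ`. The Fourier transform of `n` does not vanish for some character `ψ` of `Γ`, hence it does not vanish
for the powers `ψ^k`, `k` prime to the order `N` of `Γ`, because `n` is rational, and the Fourier transform of `x`
vanishes for their inverses, because the relations are stable under translations. Consider the function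

`v(γ) = (1 / N) ∑ j, ∏ q, (1 - ζ^(- j N / q)) ψ(γ)^j`,  `ζ = exp(2 π i / N)`,

where `q` are the prime divisors of `N` and `0 ≤ j < N`. The product vanishes if `j` is not prime to `N`, so that
`∑ v(γ) x(γ) = 0`. On the other hand, if we expand the product, we see that `v(γ)` is the sum of the signs `(-1)^(# S)`
over the sets `S` of prime divisors such that `ψ(γ) = ζ^(∑ q ∈ S, N / q)`; there is at most one such set, and `v(0) = 1`. So
`v` has values in `{-1, 0, 1}`, and it is odd. It is the difference of the characteristic functions of two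
types, and the sums of the `x γ` over these types agree, a contradiction.

So the algebraic hull of `X` is all of `𝔷` (theorem on replicas, `Pool.Agent.N208.CT.cen_mem`), and part 1 follows. The
complex structure is the sum of an element of `𝔷 ⊗ ℝ` and an element of `[𝔤, 𝔤] ⊗ ℝ`, and the weights are in the Lie algebra
of `G` since `π` is transcendental; this gives the parts 2 and 3.
-/

open Module Matrix TensorProduct Pool.Agent.Y102 Pool.Agent.W516.DR Pool.Agent.H204R3.GP

noncomputable section

namespace Pool.Agent.Results.MP_caab05_ag.AbelianCentres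

variable {g : ℕ} (A : AbVar g)

/-! ### The Lie algebra -/

/-- The multilinear forms in `2m` variables in the rational homology. -/
abbrev Form (m : ℕ) : Type := MultilinearMap ℚ (fun _ : Fin m × Fin 2 => A.H1) ℚ

/-- `φ` is a de Rham-Betti class in `H^1(A) ^ {⊗ 2m} (m)`. -/
def IsDRB {m : ℕ} (φ : Form A m) : Prop :=
  IsDeRhamBettiForm QBar A.dR (2 * Real.pi * Complex.I) m φ

/-- `φ` is a Hodge class in `H^1(A) ^ {⊗ 2m} (m)`. -/
def IsHodge {m : ℕ} (φ : Form A m) : Prop := IsHodgeTensor (A.per : A.H1 →+ (Fin g → ℂ)) φ

/-- The endomorphism `X` annihilates the form `φ` (as a derivation). -/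
def Annihilates {m : ℕ} (X : Module.End ℚ A.H1) (φ : Form A m) : Prop :=
  ∀ v, ∑ k, φ (Function.update v k (X (v k))) = 0

/-- `X` is in the Lie algebra `𝔤` of the Hodge group: it annihilates all classes that are Hodge classes and
de Rham-Betti classes (by the theorem of Deligne all Hodge classes on abelian varieties over `ℚ̄` are
de Rham-Betti classes). -/
def InLie (X : Module.End ℚ A.H1) : Prop :=
  ∀ (m : ℕ) (φ : Form A m), IsHodge A φ → IsDRB A φ → Annihilates A X φ

/-- `X` is an element of the centre of `𝔤`. -/
def InCentre (X : Module.End ℚ A.H1) : Prop := InLie A X ∧ ∀ Y, InLie A Y → Y * X = X * Y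

/-- The derived algebra `[𝔤, 𝔤]`. -/
def derivedLie : Submodule ℚ (Module.End ℚ A.H1) :=
  Submodule.span ℚ {Z | ∃ X, InLie A X ∧ ∃ Y, InLie A Y ∧ Z = X * Y - Y * X}

/-! ### Centres of abelian type -/

/-- The matrix of the extension of an endomorphism of `H_1(A, ℚ)` to `H_1(A, ℂ)`, for the basis of the
lattice. -/
def toC (X : Module.End ℚ A.H1) : Matrix (Fin (2 * g)) (Fin (2 * g)) ℂ :=
  Matrix.of fun i j => (X (Pi.single j 1) i : ℂ)

/-- `Φ` is a type: it contains exactly one of the elements `γ`, `c + γ`, for all `γ`. -/
def IsType {Γ : Type} [AddCommGroup Γ] (c : Γ) (Φ : Finset Γ) : Prop := ∀ γ, γ ∈ Φ ↔ c + γ ∉ Φ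

/-- `v` is a common eigenvector of the centre of `𝔤` in `H_1(A, ℂ)`, with the eigenvalues `χ X`. -/
def IsEigen (χ : Module.End ℚ A.H1 → ℂ) (v : Fin (2 * g) → ℂ) : Prop :=
  v ≠ 0 ∧ ∀ X, InCentre A X → toC A X *ᵥ v = χ X • v

/-- **The centre of `𝔤` is of abelian type.** -/
structure AbelianCentre {Γ : Type} [AddCommGroup Γ] [Fintype Γ] (c : Γ)
    (ε : Γ → Module.End ℚ A.H1 → ℂ) : Prop where
  /-- the element `c` (the complex conjugation) has order one or two -/
  two : c + c = 0
  /-- the functions are odd -/
  odd : ∀ γ X, InCentre A X → ε (c + γ) X = - ε γ X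
  /-- the translations by elements of `Γ` are given by automorphisms of `ℂ` -/
  galois : ∀ γ, ∃ σ : ℂ ≃+* ℂ, ∀ γ' X, InCentre A X → σ (ε γ' X) = ε (γ + γ') X
  /-- all types occur, on the part of the homology on which `[𝔤, 𝔤]` acts trivially -/
  types : ∀ Φ : Finset Γ, IsType c Φ → ∃ v, IsEigen A (fun X => ∑ γ ∈ Φ, ε γ X) v ∧
    ∀ Y ∈ derivedLie A, toC A Y *ᵥ v = 0
  /-- different types are different on the centre -/
  distinct : ∀ Φ Φ' : Finset Γ, IsType c Φ → IsType c Φ' →
    (∀ X, InCentre A X → ∑ γ ∈ Φ, ε γ X = ∑ γ ∈ Φ', ε γ X) → Φ = Φ'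
  /-- the eigenvalues of the common eigenvectors of the centre are combinations of the `ε γ` -/
  rational : ∀ χ v, IsEigen A χ v → ∃ q : Γ → ℚ, ∀ X, InCentre A X → χ X = ∑ γ, (q γ : ℂ) * ε γ X

/-! ### Motives -/

variable {s n : ℕ} (r : Fin s → ℕ) (w : Fin s → ℤ)

/-- The Betti realization of the sum of the motives `h^1(A) ^ {⊗ r i} (w i)`: families of multilinear
forms in `r i` variables in the rational homology. -/
abbrev Tensors : Type := ∀ i : Fin s, MultilinearMap ℚ (fun _ : Fin (r i) => A.H1) ℚ

variable {A r}

/-- `M` is the matrix of the action of the endomorphism `X` of the rational homology of `A` (as a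
derivation) on the space of tensors with the basis `B`. -/
def IsLieMatrix (B : Fin n → Tensors A r) (X : Module.End ℚ A.H1)
    (M : Matrix (Fin n) (Fin n) ℚ) : Prop :=
  ∀ a i v, ∑ k, B a i (Function.update v k (X (v k))) = ∑ b, M b a * B b i v

/-- The subspace with the basis `B` is the Betti realization of a direct factor `M` of the sum of the
motives `h^1(A) ^ {⊗ r i} (w i)`, and `P` is the matrix of the periods of `M` for the basis `B` and for
some basis of the de Rham realization of `M` over `ℚ̄`. -/
structure IsMotive (B : Fin n → Tensors A r) (P : Matrix (Fin n) (Fin n) ℂ) : Prop where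
  /-- `B` is a basis of a subspace -/
  basis : LinearIndependent ℚ B
  /-- the subspace is stable under `𝔤` -/
  lie : ∀ X, InLie A X → ∃ M : Matrix (Fin n) (Fin n) ℚ, IsLieMatrix B X M
  /-- the subspace is stable under the weights -/
  weight : ∃ M : Matrix (Fin n) (Fin n) ℚ, ∀ a i v,
    ((r i : ℚ) - 2 * w i) * B a i v = ∑ b, M b a * B b i v
  /-- the de Rham realization has a basis of elements with algebraic coefficients in terms of the
  tensor products of the elements of the basis of `H^1_dR(A / ℚ̄)` -/
  deRham : ∃ c : Fin n → ∀ i : Fin s, (Fin (r i) → Fin g ⊕ Fin g) → ℂ,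
    (∀ a i J, IsAlgebraic ℚ (c a i J)) ∧ ∀ a i (v : Fin (r i) → A.H1),
      ∑ J, c a i J * ∏ k, A.dR (J k) (v k) =
        (2 * Real.pi * Complex.I) ^ (w i) * ∑ b, P b a * (B b i v : ℂ)
  /-- the matrix of the periods is invertible -/
  det : P.det ≠ 0

/-! ### Algebraic groups, torsors and the Mumford-Tate group -/

/-- A subgroup of `GL_R(ℂ)` defined by polynomials with rational coefficients. -/
def IsAlgebraicSubgroup {R : Type} [Fintype R] [DecidableEq R] (G : Subgroup (GL R ℂ)) : Prop :=
  ∃ I : Set (MvPolynomial (R × R) ℚ), ∀ x : GL R ℂ, x ∈ G ↔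
    ∀ p ∈ I, MvPolynomial.aeval (fun b : R × R => (x : Matrix R R ℂ) b.1 b.2) p = 0

/-- The torsor `G · T⁻¹` of `G`: the matrices `F` such that `F T` is an element of `G`. It is
defined over `ℚ̄` if `T` is a matrix with algebraic entries. -/
def torsor (G : Subgroup (GL (Fin n) ℂ)) (T : Matrix (Fin n) (Fin n) ℂ) :
    Set (Matrix (Fin n) (Fin n) ℂ) :=
  {F | ∃ x ∈ G, (x : Matrix (Fin n) (Fin n) ℂ) = F * T}

/-- `exp (t M)` is in `G` for all complex numbers `t`: the matrix `M` is in the Lie algebra of `G`. -/
def InLieOf (G : Subgroup (GL (Fin n) ℂ)) (M : Matrix (Fin n) (Fin n) ℚ) : Prop :=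
  ∀ t : ℂ, ∃ x ∈ G, (x : Matrix (Fin n) (Fin n) ℂ) = NormedSpace.exp (t • M.map fun q => (q : ℂ))

variable (A) in
/-- The Hodge structure of `H^1(A)`: the complex number `z` acts on `H_1(A, ℝ) = ℂ ^ g` by
multiplication, and on `H^1(A, ℝ)` by the transposed map, here in the basis of `H^1(A, ℚ)` which is
dual to the basis of the lattice. -/
def hodge (z : ℂ) : Matrix (Fin (2 * g)) (Fin (2 * g)) ℂ :=
  Matrix.of fun i j => ((A.lam.repr (z • A.lam i) j : ℝ) : ℂ)

/-- `R` is the matrix of the action of the complex number `z` on `M`, in the Hodge structure given by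
those of `H^1(A)` and of the Tate motives (`z` acts on `ℚ(1)` by `(z z̄)⁻¹`). -/
def IsHodgeMatrix (B : Fin n → Tensors A r) (z : ℂ) (R : Matrix (Fin n) (Fin n) ℂ) : Prop :=
  ∀ a i (j : Fin (r i) → Fin (2 * g)),
    ∑ j' : Fin (r i) → Fin (2 * g), (∏ k, hodge A z (j k) (j' k)) *
        (B a i (fun k => Pi.single (j' k) 1) : ℂ) =
      (z * (starRingEnd ℂ) z) ^ (w i) * ∑ b, R b a * (B b i (fun k => Pi.single (j k) 1) : ℂ)

/-- The Mumford-Tate group of `M`: the smallest algebraic group over `ℚ` which contains the image of
the Deligne torus. -/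
def mumfordTate (B : Fin n → Tensors A r) : Subgroup (GL (Fin n) ℂ) :=
  sInf {G | IsAlgebraicSubgroup G ∧ ∀ z : ℂ, z ≠ 0 → ∃ x ∈ G,
    IsHodgeMatrix w B z (x : Matrix (Fin n) (Fin n) ℂ)}

/-! ### Proofs -/

variable (A) in
theorem inCentre_iff (X : Module.End ℚ A.H1) : InCentre A X ↔ X ∈ A.CN :=
  ⟨fun h => ⟨h.1, fun Y hY => h.2 Y hY⟩, fun h => ⟨h.1, fun Y hY => h.2 Y hY⟩⟩

/-- the coordinates of complex vectors -/
def coords {k : ℕ} : (ℂ ⊗[ℚ] (Fin k → ℚ)) ≃ₗ[ℂ] (Fin k → ℂ) :=
  (Algebra.TensorProduct.basis ℂ (Pi.basisFun ℚ (Fin k))).equivFun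

theorem coords_bc {k : ℕ} (X : Module.End ℚ (Fin k → ℚ)) (v : ℂ ⊗[ℚ] (Fin k → ℚ)) :
    coords (X.baseChange ℂ v) = (Matrix.of fun i j => (X (Pi.single j 1) i : ℂ)) *ᵥ coords v := by
  have h1 := LinearMap.toMatrix_mulVec_repr (Algebra.TensorProduct.basis ℂ (Pi.basisFun ℚ (Fin k)))
    (Algebra.TensorProduct.basis ℂ (Pi.basisFun ℚ (Fin k))) (X.baseChange ℂ) v
  rw [toMatrix_bc] at h1
  have h2 : (Matrix.of fun i j => (X (Pi.single j 1) i : ℂ)) = Pool.Agent.Y102.toC X := rfl
  rw [h2]
  exact h1.symm

theorem AbelianCentre.toAbCen {Γ : Type} [AddCommGroup Γ] [Fintype Γ] {c : Γ}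
    {ε : Γ → Module.End ℚ A.H1 → ℂ} (h : AbelianCentre A c ε) : V8H77.PC.AbCen A c ε where
  two := h.two
  odd := fun γ X hX => h.odd γ X ((inCentre_iff A X).2 hX)
  galois := fun γ => by
    obtain ⟨σ, hσ⟩ := h.galois γ
    exact ⟨σ.toRingHom, fun γ' X hX => hσ γ' X ((inCentre_iff A X).2 hX)⟩
  types := fun Φ hΦ => by
    obtain ⟨v, ⟨hv0, hv⟩, hd⟩ := h.types Φ hΦ
    refine ⟨coords.symm v, ?_, fun Y hY Z hZ => ?_, fun X hX => ?_⟩
    · intro h0
      exact hv0 ((LinearEquiv.map_eq_zero_iff _).1 h0)
    · apply coords.injective
      rw [coords_bc, LinearEquiv.apply_symm_apply, map_zero]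
      exact hd _ (Submodule.subset_span ⟨Y, hY, Z, hZ, rfl⟩)
    · apply coords.injective
      rw [coords_bc, LinearEquiv.apply_symm_apply, map_smul, LinearEquiv.apply_symm_apply]
      exact hv X ((inCentre_iff A X).2 hX)
  distinct := fun Φ Φ' hΦ hΦ' he => h.distinct Φ Φ' hΦ hΦ' fun X hX => he X ((inCentre_iff A X).1 hX)
  rational := fun v χ hv hχ => by
    obtain ⟨q, hq⟩ := h.rational χ (coords v) ⟨fun h0 => hv ((LinearEquiv.map_eq_zero_iff _).1 h0),
      fun X hX => by
        have h1 := congrArg coords (hχ X ((inCentre_iff A X).1 hX))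
        rw [coords_bc, map_smul] at h1
        exact h1⟩
    exact ⟨q, fun X hX => hq X ((inCentre_iff A X).2 hX)⟩

/-- **Theorem.** Let `A` be an abelian variety over `ℚ̄` such that the centre of the Lie algebra `𝔤` of the Hodge
group of `A` is of abelian type. Let `M` be a motive in the tensor category generated by the motive
`h^1(A)` and the Tate motives, with the matrix `P` of periods. Let `G` be an algebraic group over
`ℚ` with a torsor over `ℚ̄` which contains `P`.

1. The image in the endomorphisms of `M` of the centre of `𝔤` is contained in the Lie algebra of `G`.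
2. If the image of the derived algebra `[𝔤, 𝔤]` is contained in the Lie algebra of `G` then the Mumford-Tate
   group of `M` is contained in `G`.
3. If `𝔤` is commutative then the Mumford-Tate group of `M` is contained in `G`. -/
theorem result {g s n : ℕ} (A : AbVar g) {Γ : Type} [AddCommGroup Γ] [Fintype Γ] (c : Γ)
    (ε : Γ → Module.End ℚ A.H1 → ℂ) (hA : AbelianCentre A c ε) (r : Fin s → ℕ) (w : Fin s → ℤ)
    (B : Fin n → Tensors A r) (P : Matrix (Fin n) (Fin n) ℂ) (hM : IsMotive w B P)
    (G : Subgroup (GL (Fin n) ℂ)) (hG : IsAlgebraicSubgroup G) (T : Matrix (Fin n) (Fin n) ℂ)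
    (hT : ∀ i j, IsAlgebraic ℚ (T i j)) (hP : P ∈ torsor G T) :
    (∀ X, InCentre A X → ∀ M, IsLieMatrix B X M → InLieOf G M) ∧
    ((∀ Y ∈ derivedLie A, ∀ M, IsLieMatrix B Y M → InLieOf G M) → mumfordTate w B ≤ G) ∧
    ((∀ X Y, InLie A X → InLie A Y → X * Y = Y * X) → mumfordTate w B ≤ G) := by
  have hwr : ∀ W, (∀ a i v, ((r i : ℚ) - 2 * w i) * B a i v = ∑ b, W b a * B b i v) →
      N208.AM.WRel w B W := by
    intro W h a i
    refine MultilinearMap.ext fun v => ?_
    rw [_root_.smul_apply, _root_.sum_apply, smul_eq_mul, h a i v]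
    rfl
  have hrelL : ∀ X M, N208.AM.Rel B X M ↔ IsLieMatrix B X M := by
    intro X M
    constructor
    · intro h a i v
      have h1 := congrArg (fun φ : MultilinearMap ℚ (fun _ : Fin (r i) => A.H1) ℚ => φ v) (h a i)
      simp only [N208.AM.dact_apply, _root_.sum_apply, _root_.smul_apply, smul_eq_mul] at h1
      exact h1
    · intro h a i
      refine MultilinearMap.ext fun v => ?_
      rw [N208.AM.dact_apply, _root_.sum_apply, h a i v]
      rfl
  obtain ⟨hM', Wt, hW⟩ : N208.AM.Mot w B P ∧ ∃ Wt, N208.AM.WRel w B Wt := by
    have hwt : ∃ M, N208.AM.WRel w B M := by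
      obtain ⟨M, h⟩ := hM.weight
      exact ⟨M, hwr M h⟩
    refine ⟨⟨hM.basis, fun X hX => ?_, hwt, hM.det, hM.deRham⟩, hwt⟩
    obtain ⟨M, h⟩ := hM.lie X hX
    exact ⟨M, (hrelL X M).2 h⟩
  have hb : ∀ j : Fin (2 * g), A.bas j = Pi.single j 1 := fun j => by
    unfold AbVar.bas
    rw [Pi.basisFun_apply]
  have hrel : ∀ z R, N208.AM.HRel w B z R → IsHodgeMatrix w B z R := by
    intro z R h a i j
    have h1 := h a i j
    simp only [hb] at h1
    exact h1
  -- the group
  have hdet : T.det ≠ 0 := by
    obtain ⟨x, -, hxT⟩ := hP
    intro h0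
    have h1 : (x : Matrix (Fin n) (Fin n) ℂ).det = 0 := by
      rw [hxT, Matrix.det_mul, h0, mul_zero]
    exact (Matrix.GeneralLinearGroup.det x).ne_zero h1
  obtain ⟨T', h1, h2⟩ := Pool.Agent.R917.alg_inv hT hdet
  obtain ⟨x, hx, hxT⟩ := hP
  have hH : N208.AM.PtM P _ := ⟨Pool.Agent.R917.algGrp_of hG, T, T', h1, h2, x, hx, hxT⟩
  have hrig := hA.toAbCen.rigid
  have hin : ∀ M : Matrix (Fin n) (Fin n) ℚ, M ∈ N208.AM.LQ {M : Matrix (Fin n) (Fin n) ℂ |
      ∃ x ∈ G, (x : Matrix (Fin n) (Fin n) ℂ) = M} ↔ InLieOf G M := by
    intro M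
    constructor
    · intro h t
      exact Pool.Agent.R917.exp_mem hH.grp fun d => (h d).smul t
    · intro h d
      exact Pool.Agent.R918.stab_of_exp hH.grp h d
  have hJ : ∃ N, N208.AM.RelR B AbVar.JJ N := by
    obtain ⟨N, hN, -⟩ := N208.AM.exists_J hM'
    exact ⟨N, hN⟩
  obtain ⟨N, hN⟩ := hJ
  have h2' : (∀ Y ∈ derivedLie A, ∀ M, IsLieMatrix B Y M → InLieOf G M) → mumfordTate w B ≤ G := by
    intro hder
    have hder' : ∀ X ∈ der A.NA, ∀ M, N208.AM.Rel B X M → M ∈ N208.AM.LQ
        {M : Matrix (Fin n) (Fin n) ℂ | ∃ x ∈ G, (x : Matrix (Fin n) (Fin n) ℂ) = M} := by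
      intro X hX M hM
      refine (hin M).2 (hder X ?_ M ((hrelL X M).1 hM))
      refine (Submodule.span_mono ?_) hX
      rintro _ ⟨X, hX, Y, hY, rfl⟩
      exact ⟨X, hX, Y, hY, rfl⟩
    refine sInf_le ⟨hG, fun u hu => ?_⟩
    obtain ⟨⟨y, hy, hy'⟩, h4⟩ := V8H77.PC.main_cen hM' hW hH hrig hder' hN hu
    refine ⟨y, hy, ?_⟩
    rw [hy']
    exact hrel _ _ h4
  refine ⟨fun X hX M hXM => ?_, h2', fun hcomm => h2' fun Y hY M hYM => ?_⟩
  · rw [← hin]
    exact N208.CT.cen_mem hM' hW hH hrig ((inCentre_iff A X).1 hX) ((hrelL X M).2 hXM)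
  · have h0 : Y = 0 := by
      have h3 : derivedLie A = ⊥ := by
        rw [eq_bot_iff]
        refine Submodule.span_le.2 ?_
        rintro _ ⟨X, hX, Y, hY, rfl⟩
        rw [SetLike.mem_coe, Submodule.mem_bot, hcomm X Y hX hY, sub_self]
      rw [h3] at hY
      exact (Submodule.mem_bot ℚ).1 hY
    have h3 : M = 0 := by
      have h4 := (hrelL Y M).2 hYM
      rw [h0] at h4
      exact h4.uniq hM'.li N208.AM.Rel.zero
    rw [← hin, h3]
    exact Submodule.zero_mem _

end Pool.Agent.Results.MP_caab05_ag.AbelianCentres
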