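import Pool.Agent.V8H77.DP.Core

set_option autoImplicit false

/-!
# The torsors of periods of motives whose Mumford-Tate domain is a product of discs

Let `A` be an abelian variety over `ℚ̄` and let `M` be any André motive over `ℚ̄` in the tensor
category generated by `h^1(A)` and the Tate motives. Let `P` be the matrix of the periods
of `M`, and let `G ⊆ GL(H_B(M))` be *any* algebraic group over `ℚ` such that the comparison
isomorphism of `M` is a point of a torsor of `G` defined over `ℚ̄`: `P T ∈ G(ℂ)` for some matrix `T`
with algebraic entries. By theorems of Deligne and André the motivic Galois group of `M` is its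
Mumford-Tate group `MT(M)`, and `P` is a point of a torsor of `MT(M)`. Grothendieck's conjecture
(weak form: the transcendence degree of the periods is `dim MT(M)`) says that `P` is a generic point
of this torsor; in particular it predicts that every such `G` contains `MT(M)`. (The prediction is
equivalent to: all de Rham-Betti classes in the tensor constructions of `M` are Hodge classes, and `G`
may be the de Rham-Betti group.)

**Planes** (`Plane`). We consider two-dimensional subspaces of `H_1(A, ℂ)` which are stable and
irreducible under the Lie algebra `𝔤` of the Hodge group of `A`. The derived algebra `[𝔤, 𝔤] ⊗ ℂ` acts on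
such a plane through `sl(2, ℂ)`, and `[𝔤, 𝔤] ⊗ ℝ` acts through `su(2)` if the Hodge structure is pure on
the plane, that is, if the complex structure `J` of `H_1(A, ℝ)` acts on it as a scalar, and through
`su(1, 1) = sl(2, ℝ)` otherwise. In the second case the domain of this factor is the unit disc.

**Families of planes** (`IsFamily`). We consider a finite family of planes such that for any two of them at least
one of the following conditions is satisfied:

* they are isomorphic as `[𝔤, 𝔤]`-modules;
* there is an automorphism `σ` of `ℂ` such that the Hodge structure is pure on one of the two conjugate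
  planes by `σ`, and not on the other one;
* they are isomorphic, as `[𝔤, 𝔤]`-modules, to planes `p'`, `q'` in `H_1(A, ℂ)` on which the elements of `𝔤` have the
  same trace (for example, on which the centre of `𝔤` acts trivially).

**The domain of `M`** (`DomainOf`). The elements of `[𝔤, 𝔤] ⊗ ℂ` which act trivially on the planes of the
family act on `M` by matrices which commute with the complex structure `N` of `M` (the generator of the Lie
algebra of the circle). In other words the part of the Hodge group of `A` which acts trivially on the planes acts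
trivially on the Mumford-Tate domain of `M`; so the domain is a product of discs, one for each noncompact colour.

**Theorem.**
1. `G` contains the derived group of `MT(M)`: for all elements `Z` of the derived algebra of the Lie algebra of the
   Hodge group of `M`, and all complex numbers `t`, the matrix `exp (t Z)` is in `G`.
2. If `G` contains the image of the centre of `𝔤` in the automorphisms of `M` (for example if the centre acts
   trivially on `M`), then `G` contains `MT(M)`.
3. If the centre of `𝔤` is of abelian type (`AbelianCentre`, see the file AbelianCentres of this problem), then `G`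
   contains `MT(M)`.

## Which motives are these? (Explanations, not part of the statement)

**All motives of abelian type whose Mumford-Tate domain is a product of discs**, that is, such that the
noncompact simple factors of the real group `MT(M)^ad(ℝ)` are isomorphic to `PGL(2, ℝ)`. Over `ℚ` the simple
factors of `MT(M)^ad` are the groups of the quaternion algebras `B_i` over totally real fields `F_i`, with any set of
split real places (at least one). Let two real places of the fields `F_i` be equivalent if there is no `σ` as in the second condition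
for them (one of the conjugate places is split, the other is ramified). This is a Galois invariant
equivalence relation, so the classes of an orbit are the places of a subfield `F_0` of the `F_i`. Choose a CM
field `K_0` which is quadratic over `F_0`, and for each ramified class one of the two places of `K_0` above it. By the
construction of Shimura and Deligne there is an abelian variety `A_i` over `ℚ̄` with `H_1(A_i, ℚ) = B_i ⊗ K_0` (tensor
product over `F_0`) and the same adjoint Hodge structure as `M`, where the centre of the Hodge group is contained in the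
unit circle of `K_0`. The planes in `H_1(A_i, ℂ)` are the representations `V(τ, φ)`, for the places `τ` of `F_i` and the
two places `φ` of `K_0` above the restriction of `τ`, and the trace of a central element depends only on `φ`; so the third condition is
satisfied if `τ` and `τ'` are equivalent. As the groups of norm one are simply connected, `M` is in the tensor
category generated by `h^1(∏ A_i)` and motives with complex multiplication. So the theorem can be applied to
the product `A` of the `A_i` and of an abelian variety with complex multiplication.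

Examples: arbitrary motives in the tensor category generated by the `h^1` of

* elliptic curves, abelian surfaces with `End(A) ≠ ℤ`, abelian varieties of `GL(2)`-type, all abelian varieties
  with real multiplication by a field `F` of degree `dim A`, with multiplication by a quaternion algebra over a totally real
  field `F` (`dim_F H_1(A) = 4` if it is totally indefinite, `dim_F H_1(A) = 8` if it is totally definite), or with
  multiplication by a CM field of degree `dim A`;
* the four-dimensional varieties of Mumford with `End(A) = ℤ`, and their generalizations: for a quaternion algebra over a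
  totally real field with *any* number of split places, tensor products of the standard representations over any
  sets of places with at most one split place;
* the `h^2` of the K3 surfaces (and hyperkähler varieties, cubic fourfolds) whose transcendental part has dimension at most four
  over its totally real field of endomorphisms (for example Picard number at least `18`), or dimension at most
  two over its CM field of endomorphisms. For dimension four over a totally real field `F` of degree `d`
  the quaternion algebra is defined over a field of degree `2 d`, with two split places: the domain is the product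
  of two discs, and the group `MT(M)^ad` is simple over `ℚ` if the discriminant is not a square;
* all motives of abelian type on quaternionic Shimura varieties (Hilbert modular varieties, Shimura curves, the Shimura
  varieties of quaternion algebras with several split and several ramified places).

For all these motives `G` contains the derived group of `MT(M)`; it contains `MT(M)` if the centre of the Hodge group of
`M` is finite, or if the centre of the Hodge group of a suitable `A` is of abelian type (for example if all the centres of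
endomorphism algebras are totally real fields or CM fields which are abelian over `ℚ`).

Known before: `M = h^1(A)` with maximal real multiplication (`MaximalRealMult`); the motives of the abelian varieties
of Mumford and their generalizations (`MiddleExteriorMotives`, one split place, all planes are tensored together), and
domains which are one disc; products of elliptic curves (Kreutz, Shen and Vial). `ProductsOfBalls` of
MP_57341d_ag excludes discs: the separation fails, since a quaternion algebra over a CM field with an involution of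
the second kind descends to the totally real subfield. New are the domains with several discs, in particular the case that some
real places are ramified, and the products of such motives.

Nothing is assumed about periods: `AbVar` is the description of an abelian variety over `ℚ̄` by theta
functions (see `Pool/Agent/Y102/AVDefs.lean`, where it is explained why every abelian variety has it),
and the transcendence theorems which are used, the theorem of Schneider and Lang and the
transcendence of `π`, are proved in the library. The group `G` is not assumed to be reductive.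

## Proof

Let `𝔮` be the set of the elements of `𝔤` whose action on `M` is in the Lie algebra of `G`, up to weights. By the theorem
of Schneider and Lang (Wüstholz) `𝔮` acts semisimply on `H_1(A, ℚ)`, with the same commutant as `𝔤`.

1. On each plane `[𝔮, 𝔮] ⊗ ℂ` acts through all of `sl(2)`: otherwise it acts by zero, `𝔮 ⊗ ℂ` acts by commuting
   matrices, and has a common eigenvector, which is an eigenvector of `𝔤`.
2. For two planes `p`, `q` the algebra `[𝔮, 𝔮] ⊗ ℂ` acts through `sl(2) × sl(2)`, or through the graph of an
   automorphism (Goursat); automorphisms are inner, so that in the second case the planes are isomorphic for `[𝔮, 𝔮]`. If the elements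
   of `𝔤` have the same trace on the planes then they are isomorphic for `𝔮`, since the centre of `𝔮` acts by
   scalars; so they are isomorphic for `𝔤`. On the other hand `tr (X² | p) = tr (X² | q)` for `X` in
   `[𝔮, 𝔮]`, and this is preserved by `σ`. The traces `tr (X² | σ p)`, `X ∈ [𝔤, 𝔤]`, are real and not
   positive if the Hodge structure of `σ p` is pure, by the polarization; if it is not pure then they are real, and
   positive for some `X` in `[𝔮, 𝔮]`: on `[𝔮, 𝔮] ⊗ ℝ` this is clear, as it acts through `su(1, 1)`, and
   `[𝔮, 𝔮]` is dense. So the graph is impossible, if the planes are not isomorphic for `[𝔤, 𝔤]`.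
3. By the lemma of Goursat and Ribet `[𝔮, 𝔮] ⊗ ℂ` and `[𝔤, 𝔤] ⊗ ℂ` have the same image in the endomorphisms of
   the sum of the planes (`Pool.Agent.V8H77.DP.Pl.joint`).
4. By a lemma on real Lie algebras of helper113 (`Pool.Agent.N113.BT.mem_of_sup`) the complex structure `N` is in the real span
   of the image of `[𝔮, 𝔮]` and of the centre of `𝔤`. This implies part 1, since the Lie algebra of the Hodge group is the
   smallest rational Lie algebra whose real span contains `N`. Parts 2 and 3 follow, since the weights are in the
   Lie algebra of `G` by the transcendence of `π`, and since centres of abelian type are rigid (AbelianCentres).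
-/

open Module Matrix TensorProduct Pool.Agent.Y102 Pool.Agent.W516.DR Pool.Agent.H204R3.GP

noncomputable section

namespace Pool.Agent.Results.MP_caab05_ag.ProductsOfDiscs

variable {g : ℕ} (A : AbVar g)

/-! ### The Lie algebra -/

/-- The multilinear forms in `2m` variables in the rational homology. -/
abbrev Form (m : ℕ) : Type := MultilinearMap ℚ (fun _ : Fin m × Fin 2 => A.H1) ℚ

/-- `φ` is a de Rham-Betti class in `H^1(A) ^ {⊗ 2m} (m)`. -/
def IsDRB {m : ℕ} (φ : Form A m) : Prop :=
  IsDeRhamBettiForm QBar A.dR (2 * Real.pi * Complex.I) m φ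

/-- `φ` is a Hodge class in `H^1(A) ^ {⊗ 2m} (m)`. -/
def IsHodge {m : ℕ} (φ : Form A m) : Prop := IsHodgeTensor (A.per : A.H1 →+ (Fin g → ℂ)) φ

/-- The endomorphism `X` annihilates the form `φ` (as a derivation). -/
def Annihilates {m : ℕ} (X : Module.End ℚ A.H1) (φ : Form A m) : Prop :=
  ∀ v, ∑ k, φ (Function.update v k (X (v k))) = 0

/-- `X` is in the Lie algebra `𝔤` of the Hodge group: it annihilates all classes that are Hodge classes and
de Rham-Betti classes (by the theorem of Deligne all Hodge classes on abelian varieties over `ℚ̄` are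
de Rham-Betti classes). -/
def InLie (X : Module.End ℚ A.H1) : Prop :=
  ∀ (m : ℕ) (φ : Form A m), IsHodge A φ → IsDRB A φ → Annihilates A X φ

/-- `X` is an element of the centre of `𝔤`. -/
def InCentre (X : Module.End ℚ A.H1) : Prop := InLie A X ∧ ∀ Y, InLie A Y → Y * X = X * Y

/-- The derived algebra `[𝔤, 𝔤]`. -/
def derivedLie : Submodule ℚ (Module.End ℚ A.H1) :=
  Submodule.span ℚ {Z | ∃ X, InLie A X ∧ ∃ Y, InLie A Y ∧ Z = X * Y - Y * X}

/-- The matrix of the extension of an endomorphism of `H_1(A, ℚ)` to `H_1(A, ℂ)`, for the basis of the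
lattice. -/
def toC (X : Module.End ℚ A.H1) : Matrix (Fin (2 * g)) (Fin (2 * g)) ℂ :=
  Matrix.of fun i j => (X (Pi.single j 1) i : ℂ)

/-! ### Planes -/

/-- A plane in `H_1(A, ℂ)` which is stable and irreducible under `𝔤`, with a basis `u`. -/
structure Plane where
  /-- the basis, in the coordinates of `H_1(A, ℂ)` given by the basis of the lattice -/
  u : Fin 2 → Fin (2 * g) → ℂ
  indep : LinearIndependent ℂ u
  /-- the matrices of the action on the plane -/
  mat : Module.End ℚ A.H1 → Matrix (Fin 2) (Fin 2) ℂ
  action : ∀ X, InLie A X → ∀ j, toC A X *ᵥ u j = ∑ i, mat X i j • u i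
  irreducible : ∀ v ∈ Submodule.span ℂ (Set.range u),
    (∀ X, InLie A X → ∃ c : ℂ, toC A X *ᵥ v = c • v) → v = 0

/-- The complex structure `J` of `H_1(A, ℝ) = ℂ ^ g`, extended to `H_1(A, ℂ)`. -/
def complexStructure : Matrix (Fin (2 * g)) (Fin (2 * g)) ℂ :=
  Matrix.of fun i j => ((A.lam.repr (Complex.I • A.lam j) i : ℝ) : ℂ)

variable {A}

/-- The planes are isomorphic as representations of `[𝔤, 𝔤]`. -/
def Isom (p q : Plane A) : Prop :=
  ∃ h : Matrix (Fin 2) (Fin 2) ℂ, h.det ≠ 0 ∧ ∀ X ∈ derivedLie A, h * q.mat X = p.mat X * h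

/-- The elements of `𝔤` have the same trace on the two planes. -/
def SameTrace (p q : Plane A) : Prop := ∀ X, InLie A X → (p.mat X).trace = (q.mat X).trace

/-- The Hodge structure is pure on the conjugate plane `σ(p)`: the complex structure acts on it as a
scalar. -/
def Pure (σ : ℂ ≃+* ℂ) (p : Plane A) : Prop :=
  ∃ c : ℂ, ∀ j, complexStructure A *ᵥ (fun i => σ (p.u j i)) = c • fun i => σ (p.u j i)

/-- **A family of planes**, such that two of them which are not isomorphic for `[𝔤, 𝔤]` are separated by the
Hodge structures of conjugate planes, or by their traces. -/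
def IsFamily {ι : Type} (Q : ι → Plane A) : Prop :=
  ∀ a b, Isom (Q a) (Q b) ∨ (∃ σ : ℂ ≃+* ℂ, ¬ (Pure σ (Q a) ↔ Pure σ (Q b))) ∨
    ∃ p q : Plane A, Isom p (Q a) ∧ Isom q (Q b) ∧ SameTrace p q

/-! ### Motives -/

variable {s n : ℕ} (r : Fin s → ℕ) (w : Fin s → ℤ)

variable (A) in
/-- The Betti realization of the sum of the motives `h^1(A) ^ {⊗ r i} (w i)`: families of multilinear
forms in `r i` variables in the rational homology. -/
abbrev Tensors : Type := ∀ i : Fin s, MultilinearMap ℚ (fun _ : Fin (r i) => A.H1) ℚ

variable {r}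

/-- `M` is the matrix of the action of the endomorphism `X` of the rational homology of `A` (as a
derivation) on the space of tensors with the basis `B`. -/
def IsLieMatrix (B : Fin n → Tensors A r) (X : Module.End ℚ A.H1)
    (M : Matrix (Fin n) (Fin n) ℚ) : Prop :=
  ∀ a i v, ∑ k, B a i (Function.update v k (X (v k))) = ∑ b, M b a * B b i v

/-- The subspace with the basis `B` is the Betti realization of a direct factor `M` of the sum of the
motives `h^1(A) ^ {⊗ r i} (w i)`, and `P` is the matrix of the periods of `M` for the basis `B` and for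
some basis of the de Rham realization of `M` over `ℚ̄`. -/
structure IsMotive (B : Fin n → Tensors A r) (P : Matrix (Fin n) (Fin n) ℂ) : Prop where
  /-- `B` is a basis of a subspace -/
  basis : LinearIndependent ℚ B
  /-- the subspace is stable under `𝔤` -/
  lie : ∀ X, InLie A X → ∃ M : Matrix (Fin n) (Fin n) ℚ, IsLieMatrix B X M
  /-- the subspace is stable under the weights -/
  weight : ∃ M : Matrix (Fin n) (Fin n) ℚ, ∀ a i v,
    ((r i : ℚ) - 2 * w i) * B a i v = ∑ b, M b a * B b i v
  /-- the de Rham realization has a basis of elements with algebraic coefficients in terms of the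
  tensor products of the elements of the basis of `H^1_dR(A / ℚ̄)` -/
  deRham : ∃ c : Fin n → ∀ i : Fin s, (Fin (r i) → Fin g ⊕ Fin g) → ℂ,
    (∀ a i J, IsAlgebraic ℚ (c a i J)) ∧ ∀ a i (v : Fin (r i) → A.H1),
      ∑ J, c a i J * ∏ k, A.dR (J k) (v k) =
        (2 * Real.pi * Complex.I) ^ (w i) * ∑ b, P b a * (B b i v : ℂ)
  /-- the matrix of the periods is invertible -/
  det : P.det ≠ 0

/-! ### The Mumford-Tate domain -/

/-- `N` is the matrix of the action on `M` of the multiplication with `i` on `H_1(A, ℝ) = ℂ ^ g` (as a
derivation): the generator of the Lie algebra of the circle in the Hodge structure of `M`. -/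
def IsComplexStructure (B : Fin n → Tensors A r) (N : Matrix (Fin n) (Fin n) ℝ) : Prop :=
  ∀ a i (j : Fin (r i) → Fin (2 * g)),
    ∑ k, ∑ l : Fin (2 * g), A.lam.repr (Complex.I • A.lam (j k)) l *
        (B a i (Function.update (fun p => Pi.single (j p) 1) k (Pi.single l 1)) : ℝ) =
      ∑ b, N b a * (B b i (fun p => Pi.single (j p) 1) : ℝ)

/-- The part of the Hodge group which acts trivially on the planes acts trivially on the Mumford-Tate domain
of `M`: if an element of `[𝔤, 𝔤] ⊗ ℂ`, which acts on `H_1(A, ℂ)` by `p.1` and on `M` by `p.2`, acts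
trivially on the planes, then `p.2` commutes with the complex structure `N` of `M`. -/
def DomainOf {ι : Type} (Q : ι → Plane A) (B : Fin n → Tensors A r)
    (N : Matrix (Fin n) (Fin n) ℝ) : Prop :=
  ∀ p ∈ Submodule.span ℂ {p : Matrix (Fin (2 * g)) (Fin (2 * g)) ℂ × Matrix (Fin n) (Fin n) ℂ |
      ∃ X ∈ derivedLie A, ∃ M : Matrix (Fin n) (Fin n) ℚ, IsLieMatrix B X M ∧
        p = (toC A X, M.map fun q => (q : ℂ))},
    (∀ a j, p.1 *ᵥ (Q a).u j = 0) →
      p.2 * N.map (fun x => (x : ℂ)) = N.map (fun x => (x : ℂ)) * p.2

/-- The Lie algebra of the Hodge group of `M`: the smallest rational Lie algebra whose real span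
contains the complex structure `N`. -/
def hodgeLie (N : Matrix (Fin n) (Fin n) ℝ) : Submodule ℚ (Matrix (Fin n) (Fin n) ℚ) :=
  sInf {L | (∀ x ∈ L, ∀ y ∈ L, x * y - y * x ∈ L) ∧
    N ∈ Submodule.span ℝ {M | ∃ x ∈ L, M = x.map fun q => (q : ℝ)}}

/-- The derived algebra. -/
def derived (L : Submodule ℚ (Matrix (Fin n) (Fin n) ℚ)) :
    Submodule ℚ (Matrix (Fin n) (Fin n) ℚ) :=
  Submodule.span ℚ {z | ∃ x ∈ L, ∃ y ∈ L, z = x * y - y * x}

/-! ### Centres of abelian type -/

variable (A) in
/-- `v` is a common eigenvector of the centre of `𝔤` in `H_1(A, ℂ)`, with the eigenvalues `χ X`. -/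
def IsEigen (χ : Module.End ℚ A.H1 → ℂ) (v : Fin (2 * g) → ℂ) : Prop :=
  v ≠ 0 ∧ ∀ X, InCentre A X → toC A X *ᵥ v = χ X • v

/-- `Φ` is a type: it contains exactly one of the elements `γ`, `c + γ`, for all `γ`. -/
def IsType {Γ : Type} [AddCommGroup Γ] (c : Γ) (Φ : Finset Γ) : Prop := ∀ γ, γ ∈ Φ ↔ c + γ ∉ Φ

variable (A) in
/-- **The centre of `𝔤` is of abelian type.** -/
structure AbelianCentre {Γ : Type} [AddCommGroup Γ] [Fintype Γ] (c : Γ)
    (ε : Γ → Module.End ℚ A.H1 → ℂ) : Prop where
  /-- the element `c` (the complex conjugation) has order one or two -/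
  two : c + c = 0
  /-- the functions are odd -/
  odd : ∀ γ X, InCentre A X → ε (c + γ) X = - ε γ X
  /-- the translations by elements of `Γ` are given by automorphisms of `ℂ` -/
  galois : ∀ γ, ∃ σ : ℂ ≃+* ℂ, ∀ γ' X, InCentre A X → σ (ε γ' X) = ε (γ + γ') X
  /-- all types occur, on the part of the homology on which `[𝔤, 𝔤]` acts trivially -/
  types : ∀ Φ : Finset Γ, IsType c Φ → ∃ v, IsEigen A (fun X => ∑ γ ∈ Φ, ε γ X) v ∧
    ∀ Y ∈ derivedLie A, toC A Y *ᵥ v = 0
  /-- different types are different on the centre -/
  distinct : ∀ Φ Φ' : Finset Γ, IsType c Φ → IsType c Φ' →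
    (∀ X, InCentre A X → ∑ γ ∈ Φ, ε γ X = ∑ γ ∈ Φ', ε γ X) → Φ = Φ'
  /-- the eigenvalues of the common eigenvectors of the centre are combinations of the `ε γ` -/
  rational : ∀ χ v, IsEigen A χ v → ∃ q : Γ → ℚ, ∀ X, InCentre A X → χ X = ∑ γ, (q γ : ℂ) * ε γ X

/-! ### Algebraic groups, torsors and the Mumford-Tate group -/

/-- A subgroup of `GL_R(ℂ)` defined by polynomials with rational coefficients. -/
def IsAlgebraicSubgroup {R : Type} [Fintype R] [DecidableEq R] (G : Subgroup (GL R ℂ)) : Prop :=
  ∃ I : Set (MvPolynomial (R × R) ℚ), ∀ x : GL R ℂ, x ∈ G ↔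
    ∀ p ∈ I, MvPolynomial.aeval (fun b : R × R => (x : Matrix R R ℂ) b.1 b.2) p = 0

/-- The torsor `G · T⁻¹` of `G`: the matrices `F` such that `F T` is an element of `G`. It is
defined over `ℚ̄` if `T` is a matrix with algebraic entries. -/
def torsor (G : Subgroup (GL (Fin n) ℂ)) (T : Matrix (Fin n) (Fin n) ℂ) :
    Set (Matrix (Fin n) (Fin n) ℂ) :=
  {F | ∃ x ∈ G, (x : Matrix (Fin n) (Fin n) ℂ) = F * T}

/-- `exp (t M)` is in `G` for all complex numbers `t`: the matrix `M` is in the Lie algebra of `G`. -/
def InLieOf (G : Subgroup (GL (Fin n) ℂ)) (M : Matrix (Fin n) (Fin n) ℚ) : Prop :=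
  ∀ t : ℂ, ∃ x ∈ G, (x : Matrix (Fin n) (Fin n) ℂ) = NormedSpace.exp (t • M.map fun q => (q : ℂ))

variable (A) in
/-- The Hodge structure of `H^1(A)`: the complex number `z` acts on `H_1(A, ℝ) = ℂ ^ g` by
multiplication, and on `H^1(A, ℝ)` by the transposed map, here in the basis of `H^1(A, ℚ)` which is
dual to the basis of the lattice. -/
def hodge (z : ℂ) : Matrix (Fin (2 * g)) (Fin (2 * g)) ℂ :=
  Matrix.of fun i j => ((A.lam.repr (z • A.lam i) j : ℝ) : ℂ)

/-- `R` is the matrix of the action of the complex number `z` on `M`, in the Hodge structure given by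
those of `H^1(A)` and of the Tate motives (`z` acts on `ℚ(1)` by `(z z̄)⁻¹`). -/
def IsHodgeMatrix (B : Fin n → Tensors A r) (z : ℂ) (R : Matrix (Fin n) (Fin n) ℂ) : Prop :=
  ∀ a i (j : Fin (r i) → Fin (2 * g)),
    ∑ j' : Fin (r i) → Fin (2 * g), (∏ k, hodge A z (j k) (j' k)) *
        (B a i (fun k => Pi.single (j' k) 1) : ℂ) =
      (z * (starRingEnd ℂ) z) ^ (w i) * ∑ b, R b a * (B b i (fun k => Pi.single (j k) 1) : ℂ)

/-- The Mumford-Tate group of `M`: the smallest algebraic group over `ℚ` which contains the image of
the Deligne torus. -/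
def mumfordTate (B : Fin n → Tensors A r) : Subgroup (GL (Fin n) ℂ) :=
  sInf {G | IsAlgebraicSubgroup G ∧ ∀ z : ℂ, z ≠ 0 → ∃ x ∈ G,
    IsHodgeMatrix w B z (x : Matrix (Fin n) (Fin n) ℂ)}

/-! ### Proofs -/

variable (A) in
theorem inCentre_iff (X : Module.End ℚ A.H1) : InCentre A X ↔ X ∈ A.CN :=
  ⟨fun h => ⟨h.1, fun Y hY => h.2 Y hY⟩, fun h => ⟨h.1, fun Y hY => h.2 Y hY⟩⟩

/-- the coordinates of complex vectors -/
def coords {k : ℕ} : (ℂ ⊗[ℚ] (Fin k → ℚ)) ≃ₗ[ℂ] (Fin k → ℂ) :=
  (Algebra.TensorProduct.basis ℂ (Pi.basisFun ℚ (Fin k))).equivFun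

theorem coords_mat {k : ℕ} (X : Matrix (Fin k) (Fin k) ℂ) (v : ℂ ⊗[ℚ] (Fin k → ℚ)) :
    coords (matE k X v) = X *ᵥ coords v := by
  have h1 := LinearMap.toMatrix_mulVec_repr (Algebra.TensorProduct.basis ℂ (Pi.basisFun ℚ (Fin k)))
    (Algebra.TensorProduct.basis ℂ (Pi.basisFun ℚ (Fin k))) (matE k X) v
  have h2 : LinearMap.toMatrix (Algebra.TensorProduct.basis ℂ (Pi.basisFun ℚ (Fin k)))
    (Algebra.TensorProduct.basis ℂ (Pi.basisFun ℚ (Fin k))) (matE k X) = X := by
    have h3 := (matE k).symm_apply_apply X
    exact h3
  rw [h2] at h1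
  exact h1.symm

theorem coords_bc {k : ℕ} (X : Module.End ℚ (Fin k → ℚ)) (v : ℂ ⊗[ℚ] (Fin k → ℚ)) :
    coords (X.baseChange ℂ v) = (Matrix.of fun i j => (X (Pi.single j 1) i : ℂ)) *ᵥ coords v := by
  rw [← matE_toC, coords_mat]
  rfl

theorem coords_symm_bc (X : Module.End ℚ A.H1) (v : Fin (2 * g) → ℂ) :
    X.baseChange ℂ (coords.symm v) = coords.symm (toC A X *ᵥ v) := by
  apply coords.injective
  rw [coords_bc, LinearEquiv.apply_symm_apply, LinearEquiv.apply_symm_apply]
  rfl

theorem coords_symm_sum (v : Fin (2 * g) → ℂ) :
    (coords.symm v : ℂ ⊗[ℚ] A.H1) = ∑ j, v j • V8H77.DP.cbas A j :=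
  (Algebra.TensorProduct.basis ℂ (Pi.basisFun ℚ (Fin (2 * g)))).equivFun_symm_apply v

theorem coords_mem (p : Plane A) {v : ℂ ⊗[ℚ] A.H1}
    (hv : v ∈ Submodule.span ℂ (Set.range fun j => (coords.symm (p.u j) : ℂ ⊗[ℚ] A.H1))) :
    coords v ∈ Submodule.span ℂ (Set.range p.u) := by
  induction hv using Submodule.span_induction with
  | mem v hv =>
    obtain ⟨j, rfl⟩ := hv
    simp only
    rw [LinearEquiv.apply_symm_apply]
    exact Submodule.subset_span ⟨j, rfl⟩
  | zero => rw [map_zero]; exact Submodule.zero_mem _
  | add a b _ _ ha hb => rw [map_add]; exact Submodule.add_mem _ ha hb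
  | smul c a _ ha => rw [map_smul]; exact Submodule.smul_mem _ _ ha

/-- the plane in the tensor product -/
def toPl (p : Plane A) : V8H77.DP.Pl A where
  u j := coords.symm (p.u j)
  li := p.indep.map' (coords (k := 2 * g)).symm.toLinearMap
    (LinearMap.ker_eq_bot.2 (coords (k := 2 * g)).symm.injective)
  st := fun X hX j => by
    rw [coords_symm_bc, p.action X hX j, map_sum]
    refine Submodule.sum_mem _ fun i _ => ?_
    rw [map_smul]
    exact Submodule.smul_mem _ _ (Submodule.subset_span ⟨i, rfl⟩)
  irr := fun v hv h => by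
    have h1 : coords v = 0 := by
      refine p.irreducible _ (coords_mem p hv) fun X hX => ?_
      obtain ⟨c, hc⟩ := h X hX
      refine ⟨c, ?_⟩
      have h2 := congrArg coords hc
      rw [coords_bc, map_smul] at h2
      exact h2
    exact (LinearEquiv.map_eq_zero_iff _).1 h1

theorem toPl_u (p : Plane A) (j : Fin 2) : (toPl p).u j = coords.symm (p.u j) := rfl

theorem toPl_R (p : Plane A) {X : Module.End ℚ A.H1} (hX : InLie A X) :
    (toPl p).R (X.baseChange ℂ) = p.mat X := by
  ext i j
  have h1 := (toPl p).R_apply (X.baseChange ℂ) i j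
  rw [h1, toPl_u, coords_symm_bc, p.action X hX j, map_sum]
  have h2 : ∑ i, coords.symm (p.mat X i j • p.u i) = ∑ i, p.mat X i j • (toPl p).u i :=
    Finset.sum_congr rfl fun i _ => by rw [map_smul, toPl_u]
  have h3 := (toPl p).co_comb (fun i => p.mat X i j)
  have h4 : ((toPl p).co (∑ i, coords.symm (p.mat X i j • p.u i))) = fun i => p.mat X i j := by
    rw [h2]
    exact h3
  exact congrFun h4 i

theorem derivedLie_eq : derivedLie A = Pool.Agent.Y102.der A.NA := rfl

theorem inLie_of_der {X : Module.End ℚ A.H1} (hX : X ∈ derivedLie A) : InLie A X := by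
  rw [derivedLie_eq] at hX
  exact N208.AM.der_NA_le hX

theorem Isom.toIso {p q : Plane A} (h : Isom p q) : (toPl p).Iso (toPl q) := by
  obtain ⟨k, hk, h⟩ := h
  refine ⟨k, hk, fun X hX => ?_⟩
  rw [← derivedLie_eq] at hX
  rw [toPl_R p (inLie_of_der hX), toPl_R q (inLie_of_der hX)]
  exact h X hX

theorem iso_iff {p q : Plane A} : (toPl p).Iso (toPl q) ↔ Isom p q := by
  refine ⟨fun ⟨k, hk, h⟩ => ⟨k, hk, fun X hX => ?_⟩, Isom.toIso⟩
  have h1 := h X (by rw [← derivedLie_eq]; exact hX)
  rw [toPl_R p (inLie_of_der hX), toPl_R q (inLie_of_der hX)] at h1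
  exact h1

theorem sg_coords (σ : ℂ ≃+* ℂ) (v : Fin (2 * g) → ℂ) :
    V8H77.DP.sg A σ.toRingHom (coords.symm v) = coords.symm fun i => σ (v i) := by
  rw [coords_symm_sum, coords_symm_sum, map_sum]
  refine Finset.sum_congr rfl fun j _ => ?_
  rw [V8H77.DP.sg_smul]
  congr 1
  unfold V8H77.DP.cbas
  rw [Algebra.TensorProduct.basis_apply]
  rw [V8H77.DP.sg_tmul, map_one]

theorem JC_coords (v : Fin (2 * g) → ℂ) :
    V8H77.DP.JC A (coords.symm v) = coords.symm (complexStructure A *ᵥ v) := by
  have hI : ∀ j, ∑ i, A.lam.repr (Complex.I • A.lam j) i • A.lam i = Complex.I • A.lam j :=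
    fun j => A.lam.sum_repr _
  apply V8H77.DP.psi_ext
  · rw [(V8H77.DP.psi_JC _).1, coords_symm_sum, coords_symm_sum, (V8H77.DP.psi_sum _).1,
      (V8H77.DP.psi_sum _).1, Finset.smul_sum]
    have h1 : ∀ j, Complex.I • (v j).re • A.lam j =
        ∑ i, ((v j).re * A.lam.repr (Complex.I • A.lam j) i) • A.lam i := fun j => by
      calc Complex.I • (v j).re • A.lam j = (v j).re • (Complex.I • A.lam j) := smul_comm _ _ _
        _ = (v j).re • ∑ i, A.lam.repr (Complex.I • A.lam j) i • A.lam i := by rw [hI]
        _ = _ := by
          rw [Finset.smul_sum]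
          exact Finset.sum_congr rfl fun i _ => by rw [smul_smul]
    rw [Finset.sum_congr rfl fun j _ => h1 j, Finset.sum_comm]
    refine Finset.sum_congr rfl fun i _ => ?_
    rw [← Finset.sum_smul]
    congr 1
    simp only [complexStructure, Matrix.mulVec, dotProduct, Matrix.of_apply, Complex.re_sum,
      Complex.re_ofReal_mul]
    exact Finset.sum_congr rfl fun j _ => by rw [mul_comm]
  · rw [(V8H77.DP.psi_JC _).2, coords_symm_sum, coords_symm_sum, (V8H77.DP.psi_sum _).2,
      (V8H77.DP.psi_sum _).2, Finset.smul_sum]
    have h1 : ∀ j, Complex.I • (v j).im • A.lam j =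
        ∑ i, ((v j).im * A.lam.repr (Complex.I • A.lam j) i) • A.lam i := fun j => by
      calc Complex.I • (v j).im • A.lam j = (v j).im • (Complex.I • A.lam j) := smul_comm _ _ _
        _ = (v j).im • ∑ i, A.lam.repr (Complex.I • A.lam j) i • A.lam i := by rw [hI]
        _ = _ := by
          rw [Finset.smul_sum]
          exact Finset.sum_congr rfl fun i _ => by rw [smul_smul]
    rw [Finset.sum_congr rfl fun j _ => h1 j, Finset.sum_comm]
    refine Finset.sum_congr rfl fun i _ => ?_
    rw [← Finset.sum_smul]
    congr 1
    simp only [complexStructure, Matrix.mulVec, dotProduct, Matrix.of_apply, Complex.im_sum,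
      Complex.im_ofReal_mul]
    exact Finset.sum_congr rfl fun j _ => by rw [mul_comm]

theorem pure_iff (σ : ℂ ≃+* ℂ) (p : Plane A) : Pure σ p ↔ ((toPl p).conj σ).Scalar := by
  constructor
  · rintro ⟨c, hc⟩
    refine ⟨c, fun j => ?_⟩
    rw [V8H77.DP.Pl.conj_u, toPl_u, sg_coords, JC_coords, hc j, map_smul]
  · rintro ⟨c, hc⟩
    refine ⟨c, fun j => ?_⟩
    have h1 := hc j
    rw [V8H77.DP.Pl.conj_u, toPl_u, sg_coords, JC_coords, ← map_smul] at h1
    exact coords.symm.injective h1

theorem IsFamily.toPair {ι : Type} {Q : ι → Plane A} (h : IsFamily Q) (a b : ι) :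
    (toPl (Q a)).Iso (toPl (Q b)) ∨ (toPl (Q a)).Apart (toPl (Q b)) := by
  by_cases hab : (toPl (Q a)).Iso (toPl (Q b))
  · exact Or.inl hab
  right
  rcases h a b with h1 | ⟨σ, h1⟩ | ⟨p, q, hp, hq, ht⟩
  · exact absurd h1.toIso hab
  · rw [pure_iff, pure_iff] at h1
    by_cases h2 : ((toPl (Q a)).conj σ).Scalar
    · exact V8H77.DP.Pl.apart_of_hodge σ h2 fun h3 => h1 ⟨fun _ => h3, fun _ => h2⟩
    · refine (V8H77.DP.Pl.apart_of_hodge σ ?_ h2).symm
      by_contra h3
      exact h1 ⟨fun h4 => absurd h4 h2, fun h4 => absurd h4 h3⟩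
  · have hpq : ¬ (toPl p).Iso (toPl q) := fun h2 =>
      hab ((hp.toIso.symm.trans h2).trans hq.toIso)
    refine V8H77.DP.Pl.Apart.of_iso hp.toIso hq.toIso (V8H77.DP.Pl.apart_of_trace hpq ?_)
    intro X hX
    rw [toPl_R p hX, toPl_R q hX]
    exact ht X hX

theorem AbelianCentre.toAbCen {Γ : Type} [AddCommGroup Γ] [Fintype Γ] {c : Γ}
    {ε : Γ → Module.End ℚ A.H1 → ℂ} (h : AbelianCentre A c ε) : V8H77.PC.AbCen A c ε where
  two := h.two
  odd := fun γ X hX => h.odd γ X ((inCentre_iff A X).2 hX)
  galois := fun γ => by
    obtain ⟨σ, hσ⟩ := h.galois γ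
    exact ⟨σ.toRingHom, fun γ' X hX => hσ γ' X ((inCentre_iff A X).2 hX)⟩
  types := fun Φ hΦ => by
    obtain ⟨v, ⟨hv0, hv⟩, hd⟩ := h.types Φ hΦ
    refine ⟨coords.symm v, ?_, fun Y hY Z hZ => ?_, fun X hX => ?_⟩
    · intro h0
      exact hv0 ((LinearEquiv.map_eq_zero_iff _).1 h0)
    · apply coords.injective
      rw [coords_bc, LinearEquiv.apply_symm_apply, map_zero]
      exact hd _ (Submodule.subset_span ⟨Y, hY, Z, hZ, rfl⟩)
    · apply coords.injective
      rw [coords_bc, LinearEquiv.apply_symm_apply, map_smul, LinearEquiv.apply_symm_apply]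
      exact hv X ((inCentre_iff A X).2 hX)
  distinct := fun Φ Φ' hΦ hΦ' he => h.distinct Φ Φ' hΦ hΦ' fun X hX => he X ((inCentre_iff A X).1 hX)
  rational := fun v χ hv hχ => by
    obtain ⟨q, hq⟩ := h.rational χ (coords v) ⟨fun h0 => hv ((LinearEquiv.map_eq_zero_iff _).1 h0),
      fun X hX => by
        have h1 := congrArg coords (hχ X ((inCentre_iff A X).1 hX))
        rw [coords_bc, map_smul] at h1
        exact h1⟩
    exact ⟨q, fun X hX => hq X ((inCentre_iff A X).2 hX)⟩

/-- **Theorem.** Let `A` be an abelian variety over `ℚ̄` with a finite family of planes in `H_1(A, ℂ)`, stable and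
irreducible under the Lie algebra `𝔤` of the Hodge group, such that two planes of the family which are not isomorphic for
`[𝔤, 𝔤]` are separated by the Hodge structures of conjugate planes, or by their traces. Let `M` be a motive in the
tensor category generated by `h^1(A)` and the Tate motives, with the matrix `P` of periods and the
complex structure `N`, such that the part of the Hodge group of `A` which acts trivially on the
planes acts trivially on the Mumford-Tate domain of `M`. Let `G` be an
algebraic group over `ℚ` with a torsor over `ℚ̄` which contains `P`.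

1. The derived algebra of the Lie algebra of the Hodge group of `M` is contained in the Lie algebra of `G`.
2. If the image of the centre of `𝔤` is contained in the Lie algebra of `G` then the Mumford-Tate
   group of `M` is contained in `G`.
3. If the centre of `𝔤` is of abelian type then the Mumford-Tate group of `M` is contained in `G`. -/
theorem result {g s n : ℕ} (A : AbVar g) {ι : Type} [Finite ι] (Q : ι → Plane A) (hQ : IsFamily Q)
    (r : Fin s → ℕ) (w : Fin s → ℤ)
    (B : Fin n → Tensors A r) (P : Matrix (Fin n) (Fin n) ℂ) (hM : IsMotive w B P)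
    (N : Matrix (Fin n) (Fin n) ℝ) (hN : IsComplexStructure B N) (hD : DomainOf Q B N)
    (G : Subgroup (GL (Fin n) ℂ)) (hG : IsAlgebraicSubgroup G) (T : Matrix (Fin n) (Fin n) ℂ)
    (hT : ∀ i j, IsAlgebraic ℚ (T i j)) (hP : P ∈ torsor G T) :
    (∀ Z ∈ derived (hodgeLie N), InLieOf G Z) ∧
    ((∀ X, InCentre A X → ∀ M, IsLieMatrix B X M → InLieOf G M) → mumfordTate w B ≤ G) ∧
    (∀ {Γ : Type} [AddCommGroup Γ] [Fintype Γ] (c : Γ) (ε : Γ → Module.End ℚ A.H1 → ℂ),
      AbelianCentre A c ε → mumfordTate w B ≤ G) := by
  have hwr : ∀ W, (∀ a i v, ((r i : ℚ) - 2 * w i) * B a i v = ∑ b, W b a * B b i v) →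
      N208.AM.WRel w B W := by
    intro W h a i
    refine MultilinearMap.ext fun v => ?_
    rw [_root_.smul_apply, _root_.sum_apply, smul_eq_mul, h a i v]
    rfl
  have hrelL : ∀ X M, N208.AM.Rel B X M ↔ IsLieMatrix B X M := by
    intro X M
    constructor
    · intro h a i v
      have h1 := congrArg (fun φ : MultilinearMap ℚ (fun _ : Fin (r i) => A.H1) ℚ => φ v) (h a i)
      simp only [N208.AM.dact_apply, _root_.sum_apply, _root_.smul_apply, smul_eq_mul] at h1
      exact h1
    · intro h a i
      refine MultilinearMap.ext fun v => ?_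
      rw [N208.AM.dact_apply, _root_.sum_apply, h a i v]
      rfl
  obtain ⟨hM', Wt, hW⟩ : N208.AM.Mot w B P ∧ ∃ Wt, N208.AM.WRel w B Wt := by
    have hwt : ∃ M, N208.AM.WRel w B M := by
      obtain ⟨M, h⟩ := hM.weight
      exact ⟨M, hwr M h⟩
    refine ⟨⟨hM.basis, fun X hX => ?_, hwt, hM.det, hM.deRham⟩, hwt⟩
    obtain ⟨M, h⟩ := hM.lie X hX
    exact ⟨M, (hrelL X M).2 h⟩
  have hb : ∀ j : Fin (2 * g), A.bas j = Pi.single j 1 := fun j => by
    unfold AbVar.bas
    rw [Pi.basisFun_apply]
  have hrel : ∀ z R, N208.AM.HRel w B z R → IsHodgeMatrix w B z R := by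
    intro z R h a i j
    have h1 := h a i j
    simp only [hb] at h1
    exact h1
  -- the complex structure
  have hNR : N208.AM.RelR B AbVar.JJ N := by
    intro a i
    refine Basis.ext_multilinear (fun _ => A.lam) fun j => ?_
    have h1 := hN a i j
    rw [N208.AM.dact_apply, _root_.sum_apply]
    have h2 : (fun p => A.lam (j p)) = fun p => A.per (Pi.single (j p) 1) := by
      funext p
      rw [← hb, A.per_bas]
    have h3 : ∀ b, (N b a • A.Phi (B b i)) (fun p => A.lam (j p)) =
        N b a * (B b i (fun p => Pi.single (j p) 1) : ℝ) := fun b => by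
      rw [_root_.smul_apply, smul_eq_mul, h2, A.Phi_per]
    rw [Finset.sum_congr rfl fun b _ => h3 b, ← h1]
    refine Finset.sum_congr rfl fun k _ => ?_
    rw [AbVar.JJ_apply, ← A.lam.sum_repr (Complex.I • A.lam (j k)), MultilinearMap.map_update_sum]
    simp only [A.lam.sum_repr]
    refine Finset.sum_congr rfl fun l _ => ?_
    rw [MultilinearMap.map_update_smul, smul_eq_mul]
    congr 1
    have h4 : A.lam l = A.per (Pi.single l 1) := by rw [← hb, A.per_bas]
    rw [h2, h4, N208.AM.update_per, A.Phi_per]
  have hcov : V8H77.DP.Cov A (V8H77.DP.kills fun a => toPl (Q a)) :=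
    V8H77.DP.cov_kills _ hQ.toPair
  -- the domain
  have hα : ∀ p ∈ N113.BT.pC B (Pool.Agent.Y102.der A.NA), p.1 ∈ V8H77.DP.kills (fun a => toPl (Q a)) →
      p.2 * N208.AM.cxm N = N208.AM.cxm N * p.2 := by
    intro p hp h0
    have key : ∀ p ∈ N113.BT.pC B (Pool.Agent.Y102.der A.NA), ∃ x, matE (2 * g) x = p.1 ∧ (x, p.2) ∈
        Submodule.span ℂ {p : Matrix (Fin (2 * g)) (Fin (2 * g)) ℂ × Matrix (Fin n) (Fin n) ℂ |
          ∃ X ∈ derivedLie A, ∃ M : Matrix (Fin n) (Fin n) ℚ, IsLieMatrix B X M ∧
            p = (toC A X, M.map fun q => (q : ℂ))} := by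
      intro p hp
      induction hp using Submodule.span_induction with
      | mem p hp =>
        obtain ⟨X, hX, M, hM, rfl⟩ := hp
        exact ⟨Pool.Agent.Y102.toC X, matE_toC X, Submodule.subset_span
          ⟨X, hX, M, (hrelL X M).1 hM, rfl⟩⟩
      | zero => exact ⟨0, map_zero _, Submodule.zero_mem _⟩
      | add p q _ _ hp hq =>
        obtain ⟨x, hx, hx'⟩ := hp
        obtain ⟨y, hy, hy'⟩ := hq
        exact ⟨x + y, by rw [map_add, hx, hy]; rfl, Submodule.add_mem _ hx' hy'⟩
      | smul c p _ hp =>
        obtain ⟨x, hx, hx'⟩ := hp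
        exact ⟨c • x, by rw [map_smul, hx]; rfl, Submodule.smul_mem _ c hx'⟩
    obtain ⟨x, hx, hx'⟩ := key p hp
    refine hD _ hx' fun a j => ?_
    have h1 := h0 a j
    rw [← hx, toPl_u] at h1
    have h2 := congrArg coords h1
    rw [coords_mat, LinearEquiv.apply_symm_apply, map_zero] at h2
    exact h2
  -- the group
  have hdet : T.det ≠ 0 := by
    obtain ⟨x, -, hxT⟩ := hP
    intro h0
    have h1 : (x : Matrix (Fin n) (Fin n) ℂ).det = 0 := by
      rw [hxT, Matrix.det_mul, h0, mul_zero]
    exact (Matrix.GeneralLinearGroup.det x).ne_zero h1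
  obtain ⟨T', h1, h2⟩ := Pool.Agent.R917.alg_inv hT hdet
  obtain ⟨x, hx, hxT⟩ := hP
  have hH : N208.AM.PtM P _ := ⟨Pool.Agent.R917.algGrp_of hG, T, T', h1, h2, x, hx, hxT⟩
  have hin : ∀ M : Matrix (Fin n) (Fin n) ℚ, M ∈ N208.AM.LQ {M : Matrix (Fin n) (Fin n) ℂ |
      ∃ x ∈ G, (x : Matrix (Fin n) (Fin n) ℂ) = M} ↔ InLieOf G M := by
    intro M
    constructor
    · intro h t
      exact Pool.Agent.R917.exp_mem hH.grp fun d => (h d).smul t
    · intro h d
      exact Pool.Agent.R918.stab_of_exp hH.grp h d
  have h2' : (∀ X, InCentre A X → ∀ M, IsLieMatrix B X M → InLieOf G M) →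
      mumfordTate w B ≤ G := by
    intro hcen
    have hcen' : ∀ X ∈ N208.AM.cenA A, ∀ M, N208.AM.Rel B X M → M ∈ N208.AM.LQ
        {M : Matrix (Fin n) (Fin n) ℂ | ∃ x ∈ G, (x : Matrix (Fin n) (Fin n) ℂ) = M} := by
      intro X hX M hM
      exact (hin M).2 (hcen X ⟨hX.1, fun Y hY => (hX.2 Y hY).symm⟩ M ((hrelL X M).1 hM))
    refine sInf_le ⟨hG, fun u hu => ?_⟩
    obtain ⟨⟨y, hy, hy'⟩, h4⟩ := V8H77.DP.main_MTK hM' hW hH hcov hcen' hNR hα hu
    refine ⟨y, hy, ?_⟩
    rw [hy']
    exact hrel _ _ h4
  refine ⟨fun Z hZ => ?_, h2', fun c ε hA => h2' fun X hX M hXM => ?_⟩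
  · obtain ⟨L, hL1, hL2, hL3⟩ := V8H77.DP.main_derK hM' hW hH hcov hNR hα
    have h3 : hodgeLie N ≤ L := sInf_le ⟨hL1, hL2⟩
    have h4 : derived (hodgeLie N) ≤
        N208.AM.LQ {M | ∃ x ∈ G, (x : Matrix (Fin n) (Fin n) ℂ) = M} := by
      unfold derived
      rw [Submodule.span_le]
      rintro _ ⟨x, hx, y, hy, rfl⟩
      exact hL3 x (h3 hx) y (h3 hy)
    exact (hin Z).1 (h4 hZ)
  · rw [← hin]
    exact N208.CT.cen_mem hM' hW hH hA.toAbCen.rigid ((inCentre_iff A X).1 hX) ((hrelL X M).2 hXM)

end Pool.Agent.Results.MP_caab05_ag.ProductsOfDiscs
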