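import Pool.Agent.V8H93.CT.Main

set_option autoImplicit false

/-!
# An arbitrary motive and the motives of abelian varieties: relative period torsors

Let `V` be **any** motive over the field `ℚ̄` of algebraic numbers, of rank `d`, for example the cohomology of an
arbitrary variety `X` over `ℚ̄`. More generally let `V` be any de Rham-Betti structure of rank `d` over `ℚ̄`
(`Structure`): a vector space over `ℚ` and a vector space over `ℚ̄`, of dimension `d`, with an isomorphism of their
complexifications. Let `A` be an abelian variety over `ℚ̄`, and let `M` be a motive in the tensor
category generated by `h^1(A)` and the Tate motives. Let `G` be an algebraic group over `ℚ` with a torsor over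
`ℚ̄` which contains the comparison isomorphism of `V ⊕ M`. The smallest such group is `G_dRB(V ⊕ M)`;
Grothendieck's conjecture for `V ⊕ M` says that the comparison isomorphism is a generic point of the torsor
of the motivic Galois group `G_mot(V ⊕ M)`, in particular `G_dRB(V ⊕ M) = G_mot(V ⊕ M)`. We say that **`M` splits off
from `V`** if all these `G` contain `1 × Hg(M)`, where `Hg(M)` is the Hodge group of `M` (`Splits`). The kernel
of `G_mot(V ⊕ M) → G_mot(V ⊕ ℚ(1))` is contained in `1 × Hg(M)` (`G_mot(M)` is the Mumford-Tate group, by Deligne and
André), and the kernel of `G_dRB(V ⊕ M) → G_dRB(V ⊕ ℚ(1))` contains `1 × Hg(M)` if `M` splits off. So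
then *the equality `G_dRB = G_mot` for `V ⊕ M` is equivalent to the equality for `V ⊕ ℚ(1)`*. Nothing is assumed
about the periods, the Hodge classes or the cycles of `V`.

Let `V` have a filtration by subobjects whose graded pieces have the ranks `d_i` (for example the trivial filtration), and let
`h = ∑ ⌊d_i / 2⌋` (`Filtration.halves`; it is at most `⌊d / 2⌋`). Let `A` be **good**: the Hodge group of `A` is
determined by the endomorphisms of `A` (`Determined`), or `A` has complex multiplication and the centre of the
Lie algebra `𝔤` of its Hodge group is of abelian type (`AbelianCentre`), or both types are combined (`Good`, see the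
examples below).

**Theorem.**
1. There is a subspace `K` of `𝔤`, closed under replicas, such that the one-parameter groups `1 × exp(t X)`, `X ∈ K`,
   are in all groups `G` for `V ⊕ M`, for all motives `M` generated by `A`. If `A` is good then `K` is an ideal of `𝔤`, and `dim 𝔱 ≤ dim (𝔱 ∩ K) + h` for the Lie algebra `𝔱 ⊆ 𝔤` of any compact torus. If
   only the centre `𝔷` of `𝔤` is of abelian type (nothing is assumed about the semisimple part of `𝔤`) this holds for all
   `𝔱 ⊆ 𝔷`.
2. Let `A` be good and let `M_1, …, M_N` be independent motives generated by `A`: `Hg(⊕ M_i) = ∏ Hg(M_i)` up to isogeny
   (`Independent`), and let the action of `𝔤` on `⊕ M_i` be faithful. *Then all `M_i` split off from `V`,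
   with at most `h` exceptions.* If moreover the `M_i` are disjoint (the normal subgroups of
   `∏ Hg(M_i)` are products; for tori this means that there are no common factors up to isogeny), then the
   whole tensor category generated by the `M_i` which are not among the exceptions splits off from `V` (`SplitsOutside`).
3. Let `A` be good with complex multiplication, let `M_1, …, M_N` be independent, and let all proper algebraic subgroups
   of `Hg(M_i)` have codimension at least `m_i` (`CodimAtLeast`; for example `m_i = 1`, or `m_i = dim Hg(M_i)` if the torus
   `Hg(M_i)` is simple over `ℚ`). Then there is a set `S` with `∑_{i ∈ S} m_i ≤ h` such that the `M_i`, `i ∉ S`,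
   split off from `V`, and so does the tensor category generated by them if the motives are disjoint.
4. If `A` is good and `h = 0`, that is, `V` is an iterated extension of structures of rank one, then *all* motives `M`
   generated by `A` split off from `V`.
5. The number of exceptions in part 2 is optimal, for all families of motives `M_i` of rank two (for example
   the `h^1` of elliptic curves with complex multiplication): for all families `M_1, …, M_N` there is a structure `V` of rank
   `∑ rk(M_i)` such that no `M_i` with a nontrivial Hodge group splits off from `V`. (It is the sum of the `M_i`.)

## Examples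

* *Abelian varieties with complex multiplication.* By the theory of Shimura and Taniyama (see
  `MP_caab05_ag.AbelianCentres`) the products `A` of the abelian varieties `A_Φ`, for all CM types `Φ` of a CM field
  `L` which is abelian over `ℚ`, are good. So the theorem applies to all motives generated by abelian varieties with
  complex multiplication by abelian fields, for example the motives of the Fermat hypersurfaces of all degrees and dimensions.
  Let `X` be **any** variety over `ℚ̄`, and let `b` be the rank of its cohomology. Let `E_1, E_2, …` be elliptic curves with
  complex multiplication, pairwise not isogenous. In each finite subfamily there are at most `⌊b / 2⌋` exceptions,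
  such that all motives `M` generated by the other `E_i` split off from the cohomology of `X`:
  `G_dRB = G_mot` for `H^*(X) ⊕ M` if and only if this holds for `H^*(X) ⊕ ℚ(1)`. If the `E_i` are replaced by nondegenerate abelian
  varieties with complex multiplication by different cyclic fields of degree `2 m = 2^k` (then `Hg` is a simple torus of dimension `m`),
  there are at most `b / (2 m)` exceptions.
* *Multiple zeta values and the values of the gamma function.* If `V` is a mixed Tate motive over `ℚ̄`
  (its periods are multiple zeta values, values of polylogarithms at algebraic points, …) then `h = 0`. So all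
  motives `M` generated by Fermat varieties, by abelian varieties with complex multiplication by abelian fields, by products of
  elliptic curves, by Kuga-Satake varieties, … split off from `V`. In particular all
  de Rham-Betti classes in the tensor category generated by `V` and `M` come from de Rham-Betti classes of mixed Tate
  motives and from Hodge classes on abelian varieties.
* *Determined abelian varieties*: products of arbitrary elliptic curves without complex multiplication, abelian surfaces with
  quaternion multiplication, abelian varieties with real multiplication, Kuga-Satake varieties of K3 surfaces (see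
  `Determined` in the starting file OneMotivesMumfordTate, and `MP_5d33ca_ag.AbelianTypeOneMotives`). Here part 2 says: let
  `A_1, …, A_N` be such abelian varieties, with `Hg(∏ A_i) = ∏ Hg(A_i)`. Then all `h^1(A_i)` split off from `V`, with at
  most `⌊d / 2⌋` exceptions.

## Relation to other files

For abelian varieties of spin type (Kuga-Satake varieties of K3 surfaces whose transcendental lattice has only real multiplication)
the starting files `MP_470b79_ag.SplitTorsors` and `MP_bf54cf_ag.SplitOff` contain results of this kind, with other bounds for the exceptions; they use
that the Lie algebras are semisimple. There was no result for tori, where the lemmas of Goursat and Ribet do not apply, and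
for the other determined abelian varieties. `MP_caab05_ag.AbelianCentres` (helper77) is the case `V = 0` for centres of abelian type.
`MP_5d33ca_ag.KummerSplitting` treats Kummer motives instead of motives of abelian varieties.

## Proof

Consider the smallest subspace `𝔩` of `End(V_B) × End(H_1(A, ℚ)) × ℚ` which contains the components over `ℚ` of the
logarithmic derivatives of the periods of `V`, of `A` and of `2 π i`, for all derivations of `ℂ` over `ℚ̄`, and is closed under brackets and under
*replicas*: if `(Z, X, c)` is in `𝔩 ⊗ ℂ`, `X` is diagonalizable, `Z = Z_s + Z_n` is the Jordan decomposition, and `σ : ℂ → ℂ` is additive,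
then `(σ(Z_s), σ(X), σ(c)) ∈ 𝔩 ⊗ ℂ`. It acts on `V ⊕ M` by elements of the Lie algebra of `G`, for all `M` and all `G`: the
semisimple part and its replicas are in the Lie algebra of an algebraic group, even if `Z` is not semisimple
(`CS.stab_gen`). The space `K` consists of the `X` with `(0, X, 0) ∈ 𝔩`. If `A` is good then the projection of `𝔩` to `𝔤` is
surjective, by the theorem of Schneider and Lang (Wüstholz) and the properties of good abelian varieties (`NA_le_of_good`).

Let `𝔱 ⊆ 𝔤` be the Lie algebra of a compact torus, with a basis `X_j`, and let `X = ∑ π^j X_j`. Its eigenvalues are purely
imaginary, and, since `π` is transcendental, all linear relations over `ℚ` between them hold for all elements of `𝔱`; so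
every `Y ∈ 𝔱` is a replica of `X`, `Y = σ_Y(X)`. Let `(Z, X, c) ∈ 𝔩 ⊗ ℝ`. The eigenvalues of the real matrix `Z` come in pairs of
conjugate numbers, also on the graded pieces of the filtration, so that there are at most `h` positive numbers among their imaginary
parts. If `𝔱` contains more than `h` elements `Y` which are independent modulo `K`, there is a nontrivial
combination `σ = ∑ e_Y σ_Y(i Im(·))` which vanishes on all eigenvalues of `Z` and on the real number `c`. So
`(0, ∑ e_Y Y, 0) ∈ 𝔩 ⊗ ℂ`, a contradiction (`CS.main_bound`). In part 4 the complex structure `J` can be used
instead of `X`, with `σ = i Im(·)`.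

In part 2 let `X ∈ 𝔤` be a rational element near `J`, which is not contained in the subspaces `K + ker(𝔤 → End(M_i))` for
the exceptions `i` (`exists_cpt`). The form `E(u, X v)` is symmetric and positive definite, where `E` is the polarization, since this is true for `J`. The components
`X_i` of `X` (which act on `M_i` as `X`, and trivially on the other motives) commute with each other and with `X`. So they are skew
symmetric for this form, and they span the Lie algebra of a compact torus.
-/

open Module Matrix Pool.Agent.Y102 Pool.Agent.N208.OneM Pool.Agent.V8H93.CT
open Pool.Agent.V8H93.LK (Structure)

noncomputable section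

namespace Pool.Agent.Results.MP_caab05_ag.RelativeToAnyMotive

/-- **Theorem.** Let `V` be a de Rham-Betti structure of rank `d` over `ℚ̄`, and let `A` be an abelian variety over `ℚ̄`.
For filtrations of `V` by subobjects, let `h = ∑ ⌊d_i / 2⌋`, where `d_i` are the ranks of the graded pieces; `h = ⌊d / 2⌋`
for the trivial filtration.

1. There is a subspace `K` of the Lie algebra `𝔤` of the Hodge group of `A` which splits off from `V`. If `A` is good then
   it is an ideal, and `dim 𝔱 ≤ dim (𝔱 ∩ K) + h` for all compact tori `𝔱` in `𝔤`; if the centre of `𝔤` is of abelian type
   then this holds for all subspaces of the centre.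
2. If `A` is good, then for all independent families of motives on which `𝔤` acts faithfully, the Hodge groups split off from
   `V`, with at most `h` exceptions.
3. If `A` is good and `𝔤` is commutative, then for all independent families `M_i` such that the proper algebraic subgroups
   of the Hodge group of `M_i` have codimension at least `m_i` the Hodge groups of the `M_i`, `i ∉ S`, split off from `V`,
   for a set `S` with `∑_{i ∈ S} m_i ≤ h`.
4. If `A` is good and `h = 0` then the Hodge groups of all motives split off from `V`.
5. For all families `M_i` there is a structure of rank `∑ rk(M_i)` from which no `M_i` with a nontrivial Hodge group splits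
   off. -/
theorem result {g d : ℕ} (A : AbVar g) (V : Structure d) :
    (∃ F : Filtration V 1, F.halves = d / 2) ∧
    (∃ K : Sub A, SplitPart V K ∧
      (Good A → IsIdeal K ∧ ∀ 𝔱 : Sub A, InLieSpace 𝔱 → IsCompact 𝔱 → Bounded V K 𝔱) ∧
      (HasAbelianCentre A → ∀ 𝔱 : Sub A, (∀ X, Mem 𝔱 X → InCentre A X) → Bounded V K 𝔱)) ∧
    (Good A → ∀ (N : ℕ) (M : Fin N → Motive A), Independent M → Faithful M →
      ∀ (ℓ : ℕ) (F : Filtration V ℓ), ∃ S : Finset (Fin N), S.card ≤ F.halves ∧
        SplitsOutside V M S) ∧
    (Good A → Commutative A → ∀ (N : ℕ) (M : Fin N → Motive A), Independent M →
      ∀ m : Fin N → ℕ, (∀ i, CodimAtLeast (M i) (m i)) → ∀ (ℓ : ℕ) (F : Filtration V ℓ),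
        ∃ S : Finset (Fin N), ∑ i ∈ S, m i ≤ F.halves ∧ SplitsOutside V M S) ∧
    (Good A → ∀ (ℓ : ℕ) (F : Filtration V ℓ), F.halves = 0 → ∀ M : Motive A, Splits V M) ∧
    (∀ (N : ℕ) (M : Fin N → Motive A), ∃ V : Structure (∑ i, (M i).n),
      ∀ i, Splits V (M i) → hodgeGroup (M i) = ⊥) :=
  ⟨exists_triv V, main_part A V, fun hA _ _ hM hf _ F => main_count hA hM hf F,
    fun hA hc _ _ hM _ hm _ F => main_weights hA hc hM hm F,
    fun hA _ F hF M => main_tate hA F hF M, fun _ M => sharp M⟩

end Pool.Agent.Results.MP_caab05_ag.RelativeToAnyMotive
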