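import Pool.Agent.V8H73.RN.App
import Pool.Agent.N207.SC.Symp

/-!
# The period torsors of almost all hyperelliptic curves over almost all number fields, all conjugates together

An integral polynomial `f = ∑ a_i t ^ i` of degree `g` with simple roots defines the étale algebra `k = ℚ[t]/(f)`, a number
field if `f` is irreducible; the embeddings of `k` in `ℂ` are given by the roots `z` of `f`. Integers `b_(q,l)` and `d ≠ 0`
give elements `s_q = ∑_l b_(q,l) t ^ l / d` of `k`, and (with the coefficients `s_q`) polynomials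
`F_j = ∑ s_(j,k) x ^ k`, `k ≤ n_j + 1`, over `k` and the hyperelliptic curves `y² = F_j(x)` over `k`, `1 ≤ j ≤ N`, of genus
`⌊n_j / 2⌋`. Let `X` be the restriction of scalars from `k` to `ℚ` of the product of the Jacobians: over `ℂ` it is
isogenous to the product of the Jacobians of the `N g` conjugate curves `y² = F_j^z(x)`, `z` running through the roots of
`f`. If there are no unexpected cycles, the torsor of the periods of `X` is the product over `z` and `j` of the torsors
under `GSp`, with one common multiplier `2 π i`; and the period conjecture says that all polynomial relations over `ℚ̄`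
between the periods (and `2 π i`) hold on this torsor.

We show that for 100 percent of the integral data `(a, d, b)`, that is for almost all number fields of degree `g` (with a
generator) and almost all tuples of hyperelliptic curves over them, all relations whose degree is at most `ω(T)`, with
coefficients in number fields of degree at most `ω(T)` (for instance the splitting field of `f`, if `ω(T) ≥ g!`) and of
height at most `T ^ ω(T)`, between the periods of ALL the conjugate curves (those given by points in compact parts of the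
domain of the family, which exhaust the domain as `T → ∞`) hold on the product of the torsors. Here `T → ∞` is the bound
for the data, and `ω(T) → ∞`. The coefficients may moreover involve arbitrary given complex numbers `ξ_b`, for instance
the powers of `2 π i` and the periods of any other variety. So the conjugates of a curve do not interact, and the curves do
not have relations with the number field or with a given variety.
-/

set_option autoImplicit false

open Polynomial NumberField Filter

namespace Pool.Agent.Results.MP_caab05_ag.TorsorsOverRandomFields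

variable {N : ℕ}

/-! ### The curves and their periods -/

/-- twice the genus of the curves `y² = F(x)`, `F` of degree `m + 1` -/
abbrev dim (m : ℕ) : ℕ := 2 * (m / 2)

/-- the indices of the coefficients of the polynomials `F_j`, of degrees at most `n_j + 1` -/
abbrev Coef (n : Fin N → ℕ) : Type := Σ j, Fin (n j + 2)

/-- the polynomials `F_j = ∑ s_(j,k) x ^ k`, `k ≤ n_j + 1` -/
noncomputable def pol (n : Fin N → ℕ) (s : Coef n → ℂ) (j : Fin N) : ℂ[X] :=
  ∑ k : Fin (n j + 2), C (s ⟨j, k⟩) * X ^ (k : ℕ)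

/-- `F` has degree `m + 1` and its roots are `e`, in increasing order with respect to `re + im` (so they are
distinct) -/
def Branch {m : ℕ} (F : ℂ[X]) (e : Fin (m + 1) → ℂ) : Prop :=
  F.coeff (m + 1) ≠ 0 ∧ F = C (F.coeff (m + 1)) * ∏ r, (X - C (e r)) ∧
    ∀ r s, r < s → (e r).re + (e r).im < (e s).re + (e s).im

/-- the domain: the `F_j` have degree `n_j + 1` and distinct roots, with distinct `re + im`, and their leading
coefficients are not `≤ 0` multiples of `1 + i` -/
def Dom (n : Fin N → ℕ) : Set (Coef n → ℂ) :=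
  {s | ∀ j, s ⟨j, Fin.last (n j + 1)⟩ / (1 + Complex.I) ∈ Complex.slitPlane ∧ ∃ e, Branch (m := n j) (pol n s j) e}

/-- the points of the closed ball of radius `k` whose open ball of radius `1 / (k + 1)` is contained in the domain
(maximum norm) -/
def Inner (n : Fin N → ℕ) (k : ℕ) : Set (Coef n → ℂ) := {s | ‖s‖ ≤ k ∧ Metric.ball s ((k : ℝ) + 1)⁻¹ ⊆ Dom n}

/-- a branch of the square root of `c ∏ (x - e i)`, for `x` on the segment from `e l` to `e (l + 1)`: all
arguments of the principal square roots have real part `≥ 0`, up to the first two (constant) factors -/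
noncomputable def root {m : ℕ} (c : ℂ) (e : Fin (m + 1) → ℂ) (l : Fin m) (x : ℂ) : ℂ :=
  ((1 + Complex.I) ^ (1 / 2 : ℂ)) ^ (m + 2) * (c / (1 + Complex.I)) ^ (1 / 2 : ℂ) *
    Complex.I ^ (m % 2 + (l : ℕ) % 2) *
    ∏ i : Fin (m + 1), ((if (i : ℕ) ≤ l then x - e i else e i - x) / (1 + Complex.I)) ^ (1 / 2 : ℂ)

/-- the point of the segment from `p` to `q` -/
noncomputable def seg (p q : ℂ) (t : ℝ) : ℂ := (1 - t) * p + t * q

/-- the period `∮ x ^ j dx / y`, `y² = c ∏ (x - e i)`, over the loop around the segment from `e l` to `e (l + 1)`, that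
is twice the integral over the segment -/
noncomputable def period {m : ℕ} (c : ℂ) (e : Fin (m + 1) → ℂ) (l j : Fin m) : ℂ :=
  2 * ∫ t in (0 : ℝ)..1, (seg (e l.castSucc) (e l.succ) t) ^ (j : ℕ) /
    root c e l (seg (e l.castSucc) (e l.succ) t) * (e l.succ - e l.castSucc)

/-- the `i`-th form is `∑ form m F i k * x ^ k dx / y`: for `i < g = ⌊m / 2⌋` it is `x ^ i dx / y`, and for `i = g + i'`
it is the form of the second kind `∑_(i'<k) (i' - k)/2 c_(i'+k+2) x ^ k dx / y`, where `F = ∑ c_k x ^ k` -/
noncomputable def form (m : ℕ) (F : ℂ[X]) (i k : ℕ) : ℂ :=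
  if i < m / 2 then (if k = i then 1 else 0) else
    (if i - m / 2 < k then (((i - m / 2 : ℕ) : ℂ) - (k : ℂ)) / 2 * F.coeff (i - m / 2 + k + 2) else 0)

/-- the matrix of the periods of the `2 g` forms over the first `2 g` loops, `g = ⌊m / 2⌋` -/
noncomputable def periods {m : ℕ} (F : ℂ[X]) (e : Fin (m + 1) → ℂ) : Matrix (Fin (dim m)) (Fin (dim m)) ℂ :=
  Matrix.of fun l i => ∑ k : Fin m,
    period (F.coeff (m + 1)) e (Fin.castLE (by unfold dim; omega) l) k * form m F (i : ℕ) (k : ℕ)

/-- the polarisation in terms of the forms: the standard symplectic matrix -/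
def polDR (m : ℕ) : Matrix (Fin (dim m)) (Fin (dim m)) ℚ :=
  Matrix.of fun r s => if (s : ℕ) = r + m / 2 then 1 else if (r : ℕ) = s + m / 2 then -1 else 0

/-- the polarisation in terms of the loops: `2 (-1) ^ r` at `(r, s)`, `|r - s| = 1` -/
def polB (m : ℕ) : Matrix (Fin (dim m)) (Fin (dim m)) ℚ :=
  Matrix.of fun r s => if (r : ℕ) = s + 1 ∨ (s : ℕ) = r + 1 then 2 * (-1) ^ (r : ℕ) else 0

/-- the complex points of the torsor: matrices `X_j` and `lam ≠ 0` with `X_j polDR X_jᵀ = lam polB` (a torsor under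
`{(g_1, …, g_N) : g_j ∈ GSp_(2g_j), equal multipliers}`) -/
def Torsor (n : Fin N → ℕ) : Set ((∀ j, Matrix (Fin (dim (n j))) (Fin (dim (n j))) ℂ) × ℂ) :=
  {x | x.2 ≠ 0 ∧ ∀ j, x.1 j * (polDR (n j)).map (algebraMap ℚ ℂ) * (x.1 j).transpose =
    x.2 • (polB (n j)).map (algebraMap ℚ ℂ)}

/-- the indices of the entries of the matrices -/
abbrev Ind (n : Fin N → ℕ) : Type := Σ j, Fin (dim (n j)) × Fin (dim (n j))

/-- the entries of the matrices `X_j` -/
def entries {n : Fin N → ℕ} (X : ∀ j, Matrix (Fin (dim (n j))) (Fin (dim (n j))) ℂ) : Ind n → ℂ :=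
  fun q => X q.1 q.2.1 q.2.2

/-! ### The number fields and the points -/

/-- the indices of the data: the coefficients `a_i` of the polynomial `f`, the denominator `d`, the numerators
`b_(q,l)` -/
abbrev Data (g : ℕ) (n : Fin N → ℕ) : Type := Fin (g + 1) ⊕ Option (Coef n × Fin g)

/-- the integral data of absolute value at most `T` -/
noncomputable def box (g : ℕ) (n : Fin N → ℕ) (T : ℕ) : Finset (Data g n → ℤ) :=
  Fintype.piFinset fun _ => Finset.Icc (-(T : ℤ)) (T : ℤ)

/-- the polynomial `f = ∑ a_i t ^ i` -/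
noncomputable def fieldPol {g : ℕ} {n : Fin N → ℕ} (v : Data g n → ℤ) : ℂ[X] :=
  ∑ i : Fin (g + 1), C ((v (Sum.inl i) : ℤ) : ℂ) * X ^ (i : ℕ)

/-- the image under `t ↦ z` of the point `s_q = ∑_l (b_(q,l) / d) t ^ l` -/
noncomputable def point {g : ℕ} {n : Fin N → ℕ} (v : Data g n → ℤ) (z : ℂ) : Coef n → ℂ :=
  fun q => ∑ l : Fin g, ((v (Sum.inr (some (q, l))) : ℂ) / (v (Sum.inr none) : ℂ)) * z ^ (l : ℕ)

/-- every polynomial `R` in the entries of the matrices `X z j`, `z` running through the finite set `Z`, of degree at most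
`k` in each of them, whose coefficients are combinations `∑_(i < k) ξ i * c i` with integers `c i` of `L` all of whose conjugates
are at most `H`, with `R(X) = 0`, vanishes on the product of the fibres over `2 π i` of the torsors -/
def Generic (n : Fin N → ℕ) (Z : Finset ℂ) (L : Type) [Field L] [NumberField L] (io : L →+* ℂ) (k : ℕ)
    (ξ : ℕ → ℂ) (H : ℝ) (X : {z // z ∈ Z} → ∀ j, Matrix (Fin (dim (n j))) (Fin (dim (n j))) ℂ) : Prop :=
  ∀ R : MvPolynomial ({z // z ∈ Z} × Ind n) ℂ, (∀ y, R.degreeOf y ≤ k) →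
    (∀ m, ∃ c : Fin k → 𝓞 L, (∀ i (ψ : L →+* ℂ), ‖ψ (c i : L)‖ ≤ H) ∧ R.coeff m = ∑ i : Fin k, ξ i * io (c i : L)) →
    MvPolynomial.eval (fun q => entries (X q.1) q.2) R = 0 →
    ∀ Y : {z // z ∈ Z} → ∀ j, Matrix (Fin (dim (n j))) (Fin (dim (n j))) ℂ,
      (∀ z, (Y z, (2 * Real.pi * Complex.I : ℂ)) ∈ Torsor n) →
        MvPolynomial.eval (fun q => entries (Y q.1) q.2) R = 0

/-- `f` has degree `g` and simple roots, `d ≠ 0`, and for the set `Z` of the roots of `f` whose points are in the `k`-th
compact part of the domain, and all number fields `L` of degree at most `k` with an embedding: the period matrices of the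
curves over all `z` in `Z` are in the torsors, and they are generic with respect to the relations of degree `≤ k` and
height `≤ T ^ k` with coefficients in `L` and `ξ` -/
def Good {g : ℕ} (n : Fin N → ℕ) (ξ : ℕ → ℂ) (k : ℕ) (T : ℝ) (v : Data g n → ℤ) : Prop :=
  v (Sum.inl (Fin.last g)) ≠ 0 ∧ (fieldPol v).Separable ∧ v (Sum.inr none) ≠ 0 ∧
    ∀ Z : Finset ℂ, (∀ z, z ∈ Z ↔ (fieldPol v).eval z = 0 ∧ point v z ∈ Inner n k) →
      ∃ e : ∀ (_ : {z // z ∈ Z}) (j : Fin N), Fin (n j + 1) → ℂ,
        (∀ (z : {z // z ∈ Z}) (j : Fin N), Branch (pol n (point v z.1) j) (e z j)) ∧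
        (∀ z : {z // z ∈ Z},
          ((fun j => periods (pol n (point v z.1) j) (e z j)), (2 * Real.pi * Complex.I : ℂ)) ∈ Torsor n) ∧
        ∀ (L : Type) [Field L] [NumberField L], Module.finrank ℚ L ≤ k → ∀ io : L →+* ℂ,
          Generic n Z L io k ξ (T ^ k) (fun z j => periods (pol n (point v z.1) j) (e z j))

open scoped Classical in
/-- **The periods of all conjugates of almost all hyperelliptic curves over almost all number fields of degree `g`.** Let
`g ≥ 1`, let `n_1, …, n_N` be natural numbers and `ξ_b` complex numbers. There is `ω → ∞` such that for all `T` the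
proportion of the integral data of absolute value at most `T` which are not good (with respect to `k = ω T`) is at most
`1 / ω(T)`. -/
theorem result {g : ℕ} (hg : 1 ≤ g) (n : Fin N → ℕ) (ξ : ℕ → ℂ) :
    ∃ ω : ℕ → ℕ, Tendsto ω atTop atTop ∧ Monotone ω ∧ ∀ T : ℕ,
      ω T * ((box g n T).filter fun v => ¬ Good n ξ (ω T) (T : ℝ) v).card ≤ (box g n T).card := by
  have hpol : ∀ (a : Coef n → ℂ) (j : Fin N), pol n a j =
      Pool.Agent.N121.AH.fp (Pool.Agent.Y890.MV.pj a j) := fun a j => rfl
  have hlead : ∀ (a : Coef n → ℂ) (j : Fin N), (pol n a j).coeff (n j + 1) = a ⟨j, Fin.last (n j + 1)⟩ := by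
    intro a j
    rw [hpol, Pool.Agent.N121.AH.fp_coeff, dif_pos (by omega)]
    rfl
  have hbr : ∀ (a : Coef n → ℂ) (j : Fin N) (e : Fin (n j + 1) → ℂ), Branch (pol n a j) e ↔
      a ⟨j, Fin.last (n j + 1)⟩ ≠ 0 ∧ Pool.Agent.N121.AH.fp (Pool.Agent.Y890.MV.pj a j) =
        C (a ⟨j, Fin.last (n j + 1)⟩) * Pool.Agent.N121.OH.rp e ∧
        ∀ r s, r < s → (e r).re + (e r).im < (e s).re + (e s).im := by
    intro a j e
    unfold Branch
    rw [hlead]
    rfl
  have hne : ∀ z : ℂ, z / (1 + Complex.I) ∈ Complex.slitPlane → z ≠ 0 := by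
    intro z hz h0
    rw [h0, zero_div] at hz
    exact Complex.slitPlane_ne_zero hz rfl
  have hdom : Dom n = Pool.Agent.N121.KH.Dm n := by
    ext a
    unfold Dom Pool.Agent.N121.KH.Dm
    simp only [Set.mem_ofPred_eq]
    refine forall_congr' fun j => and_congr_right fun hj => exists_congr fun e => ?_
    rw [hbr]
    constructor
    · exact fun h => h.2
    · exact fun h => ⟨hne _ hj, h⟩
  have hroot : ∀ j (c : ℂ) (e : Fin (n j + 1) → ℂ) (l : Fin (n j)) (x : ℂ), root c e l x =
      Pool.Agent.N121.AH.rtG c e l x := by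
    intro j c e l x
    unfold root Pool.Agent.N121.AH.rtG Pool.Agent.N121.AH.scf Pool.Agent.N121.OH.rtF Pool.Agent.N121.AH.w0
      Pool.Agent.N121.AH.u0
    rw [pow_add Complex.I]
    ring
  have hper : ∀ (a : Coef n → ℂ) (e : ∀ j, Fin (n j + 1) → ℂ), (fun j => periods (pol n a j) (e j)) =
      Pool.Agent.N121.AH.PM n a e := by
    intro a e
    funext j
    ext l i
    unfold periods Pool.Agent.N121.AH.PM Pool.Agent.N121.AH.PF
    rw [Matrix.of_apply, Matrix.mul_apply]
    refine Finset.sum_congr rfl fun k _ => ?_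
    rw [Matrix.of_apply]
    congr 1
    unfold period Pool.Agent.N121.AH.perG
    simp only [hroot]
    rfl
  have htor : Torsor n = Pool.Agent.N121.AH.TorG n := by
    have hq : ∀ j, (polDR (n j)).map (algebraMap ℚ ℂ) = Pool.Agent.N121.AH.q0 ℂ (n j) := by
      intro j
      ext r s
      rw [Matrix.map_apply]
      unfold polDR Pool.Agent.N121.AH.q0
      rw [Matrix.of_apply, Matrix.of_apply]
      split_ifs <;> simp
    ext x
    unfold Torsor Pool.Agent.N121.AH.TorG
    simp only [Set.mem_ofPred_eq, hq]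
    rfl
  -- the torsor of the family
  have hTor : ∀ (x : Coef n → ℂ) (Y : ∀ j, Matrix (Fin (dim (n j))) (Fin (dim (n j))) ℂ),
      (Y, (2 * Real.pi * Complex.I : ℂ)) ∈ Torsor n → entries Y ∈ (Pool.Agent.N121.AH.ahF n).Tor x := by
    intro x Y hY
    have h1 : (Y, (2 * Real.pi * Complex.I : ℂ)) ∈ (Pool.Agent.N121.AH.ahF n).torsor x := by
      rw [Pool.Agent.N121.KH.torsor_eq, ← htor]
      exact hY
    exact h1.2
  have hUdom : (Pool.Agent.N121.AH.ahF n).U = Dom n := by
    rw [hdom, Pool.Agent.N121.KH.Dm_eq]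
    rfl
  have hInner : ∀ k, IsClosed (Inner n k) ∧ Inner n k ⊆ (Pool.Agent.N121.AH.ahF n).U := by
    intro k
    have hr : (0 : ℝ) < ((k : ℝ) + 1)⁻¹ := by positivity
    constructor
    · refine (isClosed_le continuous_norm continuous_const).inter ?_
      refine isClosed_of_closure_subset fun a ha => ?_
      intro x hx
      rw [Metric.mem_ball] at hx
      obtain ⟨b, hb, hab⟩ := Metric.mem_closure_iff.1 ha (((k : ℝ) + 1)⁻¹ - dist x a) (by linarith)
      refine hb (Metric.mem_ball.2 ?_)
      have h1 := dist_triangle x a b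
      linarith
    · intro s hs
      rw [hUdom]
      exact hs.2 (Metric.mem_ball_self hr)
  obtain ⟨ω, h1, h2, h3⟩ := Pool.Agent.V8H73.RN.main_P (g := g) hg (Pool.Agent.N121.AH.ahF n).conn
    (Pool.Agent.N121.AH.ahF n).isOpen (f := (Pool.Agent.N121.AH.ahF n).f)
    (fun q => (Pool.Agent.N121.AH.ahF n).an q.1 q.2.1 q.2.2) (W := (Pool.Agent.N121.AH.ahF n).Tor)
    (Pool.Agent.N207.SC.symp_irr (Pool.Agent.N121.AH.ahF n)) (Inner n) hInner ξ
  refine ⟨ω, h1, h2, fun T => le_trans (Nat.mul_le_mul_left _ (Finset.card_le_card fun v hv => ?_)) (h3 T)⟩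
  rw [Finset.mem_filter] at hv ⊢
  refine ⟨hv.1, fun hG => hv.2 ?_⟩
  obtain ⟨hG1, hG2, hG3, hG4⟩ := hG
  refine ⟨hG1, hG2, hG3, fun Z hZ => ?_⟩
  have hpt : ∀ z, point v z = Pool.Agent.V8H73.RN.ptY z (Pool.Agent.V8H73.RN.betaC v) := fun z => rfl
  have hUU : ∀ z : {z // z ∈ Z}, point v z.1 ∈ Pool.Agent.N121.AH.UU n := by
    intro z
    have h4 := (hInner (ω T)).2 ((hZ z).1 z.2).2
    rw [hUdom, hdom, Pool.Agent.N121.KH.Dm_eq] at h4
    exact h4
  let e : ∀ (_ : {z // z ∈ Z}) (j : Fin N), Fin (n j + 1) → ℂ := fun z j =>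
    Pool.Agent.N121.AH.er (Pool.Agent.Y890.MV.pj (point v z.1) j)
  have he : ∀ (z : {z // z ∈ Z}) (j : Fin N), Branch (pol n (point v z.1) j) (e z j) := by
    intro z j
    rw [hbr]
    refine ⟨hne _ (hUU z j).1, Pool.Agent.N121.AH.fp_er (hUU z j), Pool.Agent.N121.AH.er_order (hUU z j)⟩
  have hP : ∀ z : {z // z ∈ Z}, (fun j => periods (pol n (point v z.1) j) (e z j)) =
      fun j => Pool.Agent.N121.AH.PA (Pool.Agent.Y890.MV.pj (point v z.1) j) := by
    intro z
    rw [hper]
    funext j
    exact Pool.Agent.N121.AH.PF_eq (hUU z j)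
  have hPt : ∀ z : {z // z ∈ Z}, ((fun j => periods (pol n (point v z.1) j) (e z j)),
      (2 * Real.pi * Complex.I : ℂ)) ∈ Torsor n := by
    intro z
    rw [hP, htor]
    exact ⟨Y890.SM.tpi_ne, fun i => Pool.Agent.N121.AH.PA_riemann (hUU z i)⟩
  refine ⟨e, he, hPt, ?_⟩
  intro L _ _ hL io R hR1 hR2 hR3 Y hY
  refine hG4 L hL io Z (fun x => hZ x) R hR1 hR2 ?_ (fun z => entries (Y z)) fun z => hTor _ _ (hY z)
  rw [← hR3]
  congr 1
  congr 1
  funext q
  have h6 := congrFun (hP q.1) q.2.1
  show Pool.Agent.N121.AH.PA (Pool.Agent.Y890.MV.pj (point v q.1.1) q.2.1) q.2.2.1 q.2.2.2 =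
    entries (fun j => periods (pol n (point v q.1.1) j) (e q.1 j)) q.2
  exact (congrFun (congrFun h6 q.2.2.1) q.2.2.2).symm

end Pool.Agent.Results.MP_caab05_ag.TorsorsOverRandomFields
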